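import Mathlib

open scoped BigOperators ENNReal
open AddMonoidAlgebra

namespace Pool.Agent.R165.SRW

/-- `srw d n x` is the probability that the simple random walk on `ℤ^d` started at `0` is at `x` at time `n`. -/
noncomputable def srw (d : ℕ) : ℕ → (Fin d → ℤ) → ℝ≥0∞
  | 0, x => if x = 0 then 1 else 0
  | n + 1, x =>
      (∑ k : Fin d, (srw d n (x - Pi.single k 1) + srw d n (x + Pi.single k 1))) / (2 * (d : ℝ≥0∞))

noncomputable def q (d : ℕ) : ℝ := 1 / (2 * d)

/-- the step element of the group algebra -/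
noncomputable def uu (d : ℕ) : AddMonoidAlgebra ℝ (Fin d → ℤ) :=
  ∑ k : Fin d, (single (Pi.single k (1 : ℤ)) (q d) + single (-(Pi.single k (1 : ℤ))) (q d))

/-- real version of the kernel -/
noncomputable def pr (d m : ℕ) (x : Fin d → ℤ) : ℝ := ((uu d) ^ m).coeff x

/-- `ℓ¹` norm -/
def l1 {d : ℕ} (x : Fin d → ℤ) : ℕ := ∑ k, (x k).natAbs

lemma q_nonneg (d : ℕ) : 0 ≤ q d := by unfold q; positivity

lemma pr_zero (d : ℕ) (x : Fin d → ℤ) : pr d 0 x = if x = 0 then 1 else 0 := by
  unfold pr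
  rw [pow_zero, AddMonoidAlgebra.one_def]
  classical
  rw [AddMonoidAlgebra.coeff_single, Finsupp.single_apply]
  by_cases h : x = 0
  · simp [h]
  · simp [h, Ne.symm h]

lemma pr_succ (d m : ℕ) (x : Fin d → ℤ) :
    pr d (m + 1) x = q d * ∑ k : Fin d, (pr d m (x - Pi.single k 1) + pr d m (x + Pi.single k 1)) := by
  unfold pr
  rw [pow_succ']
  unfold uu
  rw [Finset.sum_mul, AddMonoidAlgebra.coeff_sum, Finset.mul_sum]
  rw [Finsupp.finsetSum_apply]
  apply Finset.sum_congr rfl
  intro k _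
  rw [add_mul, AddMonoidAlgebra.coeff_add, Finsupp.add_apply,
    AddMonoidAlgebra.coeff_single_mul_apply, AddMonoidAlgebra.coeff_single_mul_apply, mul_add,
    neg_neg, neg_add_eq_sub, add_comm (Pi.single k (1 : ℤ)) x]

lemma pr_nonneg (d m : ℕ) (x : Fin d → ℤ) : 0 ≤ pr d m x := by
  induction m generalizing x with
  | zero => rw [pr_zero]; split_ifs <;> norm_num
  | succ m ih =>
    rw [pr_succ]
    exact mul_nonneg (q_nonneg d) (Finset.sum_nonneg fun k _ => add_nonneg (ih _) (ih _))

lemma pr_neg (d m : ℕ) (x : Fin d → ℤ) : pr d m (-x) = pr d m x := by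
  induction m generalizing x with
  | zero => rw [pr_zero, pr_zero]; simp
  | succ m ih =>
    rw [pr_succ, pr_succ]
    congr 1
    apply Finset.sum_congr rfl
    intro k _
    rw [add_comm]
    congr 1
    · rw [← ih]; congr 1; ring
    · rw [← ih]; congr 1; ring

lemma l1_zero {d : ℕ} : l1 (0 : Fin d → ℤ) = 0 := by simp [l1]

lemma l1_neg {d : ℕ} (x : Fin d → ℤ) : l1 (-x) = l1 x := by simp [l1]

lemma l1_add_le {d : ℕ} (x y : Fin d → ℤ) : l1 (x + y) ≤ l1 x + l1 y := by
  unfold l1
  rw [← Finset.sum_add_distrib]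
  exact Finset.sum_le_sum fun k _ => Int.natAbs_add_le _ _

lemma l1_single {d : ℕ} (k : Fin d) : l1 (Pi.single k (1 : ℤ)) = 1 := by
  unfold l1
  rw [Finset.sum_eq_single k]
  · simp
  · intro j _ hj; simp [Pi.single_eq_of_ne hj]
  · simp

lemma pr_supp (d m : ℕ) (x : Fin d → ℤ) (h : m < l1 x) : pr d m x = 0 := by
  induction m generalizing x with
  | zero =>
    rw [pr_zero, if_neg]
    rintro rfl
    rw [l1_zero] at h
    omega
  | succ m ih =>
    rw [pr_succ]
    rw [Finset.sum_eq_zero, mul_zero]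
    intro k _
    have h1 : l1 x ≤ l1 (x - Pi.single k 1) + 1 := by
      have := l1_add_le (x - Pi.single k 1) (Pi.single k 1)
      rw [sub_add_cancel, l1_single] at this
      exact this
    have h2 : l1 x ≤ l1 (x + Pi.single k 1) + 1 := by
      have := l1_add_le (x + Pi.single k 1) (-(Pi.single k 1))
      rw [add_neg_cancel_right, l1_neg, l1_single] at this
      exact this
    rw [ih _ (by omega), ih _ (by omega), add_zero]

lemma q_eq (d : ℕ) (hd : 0 < d) : ENNReal.ofReal (q d) = (2 * (d : ℝ≥0∞))⁻¹ := by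
  unfold q
  have h : (0 : ℝ) < 2 * d := by positivity
  rw [one_div, ENNReal.ofReal_inv_of_pos h, ENNReal.ofReal_mul (by norm_num)]
  simp

lemma srw_eq (d : ℕ) (hd : 0 < d) (m : ℕ) (x : Fin d → ℤ) :
    srw d m x = ENNReal.ofReal (pr d m x) := by
  induction m generalizing x with
  | zero =>
    rw [pr_zero, srw]
    split_ifs <;> simp
  | succ m ih =>
    rw [pr_succ, srw, ENNReal.ofReal_mul (q_nonneg d), q_eq d hd, ENNReal.div_eq_inv_mul]
    congr 1
    rw [ENNReal.ofReal_sum_of_nonneg (fun k _ => add_nonneg (pr_nonneg _ _ _) (pr_nonneg _ _ _))]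
    apply Finset.sum_congr rfl
    intro k _
    rw [ih, ih, ENNReal.ofReal_add (pr_nonneg _ _ _) (pr_nonneg _ _ _)]

lemma srw_neg (d : ℕ) (hd : 0 < d) (m : ℕ) (x : Fin d → ℤ) : srw d m (-x) = srw d m x := by
  rw [srw_eq d hd, srw_eq d hd, pr_neg]

lemma srw_supp (d : ℕ) (hd : 0 < d) (m : ℕ) (x : Fin d → ℤ) (h : m < l1 x) : srw d m x = 0 := by
  rw [srw_eq d hd, pr_supp d m x h, ENNReal.ofReal_zero]

/-- total mass one -/
lemma srw_mass (d : ℕ) (hd : 0 < d) (m : ℕ) : ∑' x, srw d m x = 1 := by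
  induction m with
  | zero =>
    simp only [srw]
    rw [tsum_ite_eq]
  | succ m ih =>
    simp only [srw, ENNReal.div_eq_inv_mul]
    rw [ENNReal.tsum_mul_left, Summable.tsum_finsetSum (fun _ _ => ENNReal.summable)]
    have h1 : ∀ k : Fin d, ∑' x : Fin d → ℤ, (srw d m (x - Pi.single k 1) +
        srw d m (x + Pi.single k 1)) = 2 := by
      intro k
      rw [ENNReal.tsum_add]
      have e1 := (Equiv.subRight (Pi.single k (1 : ℤ) : Fin d → ℤ)).tsum_eq (fun x => srw d m x)
      have e2 := (Equiv.addRight (Pi.single k (1 : ℤ) : Fin d → ℤ)).tsum_eq (fun x => srw d m x)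
      simp only [Equiv.subRight_apply] at e1
      simp only [Equiv.coe_addRight] at e2
      rw [e1, e2, ih]
      norm_num
    rw [Finset.sum_congr rfl (fun k _ => h1 k)]
    rw [Finset.sum_const, Finset.card_univ, Fintype.card_fin, nsmul_eq_mul, mul_comm (d : ℝ≥0∞) 2]
    apply ENNReal.inv_mul_cancel
    · simp; omega
    · exact ENNReal.mul_ne_top (by norm_num) (ENNReal.natCast_ne_top d)

/-- Chapman-Kolmogorov -/
lemma srw_add (d : ℕ) (hd : 0 < d) (m n : ℕ) (x : Fin d → ℤ) :
    srw d (m + n) x = ∑' y, srw d m y * srw d n (x - y) := by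
  induction m generalizing x with
  | zero =>
    rw [tsum_eq_single 0]
    · simp [srw]
    · intro y hy
      simp [srw, hy]
  | succ m ih =>
    rw [show m + 1 + n = (m + n) + 1 by ring]
    simp only [srw, ENNReal.div_eq_inv_mul]
    simp only [mul_assoc]
    rw [ENNReal.tsum_mul_left]
    congr 1
    simp only [Finset.sum_mul]
    rw [Summable.tsum_finsetSum (fun _ _ => ENNReal.summable)]
    apply Finset.sum_congr rfl
    intro k _
    simp only [add_mul]
    rw [ENNReal.tsum_add, ih, ih]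
    congr 1
    · have e1 := (Equiv.subRight (Pi.single k (1 : ℤ) : Fin d → ℤ)).tsum_eq
        (fun y => srw d m y * srw d n (x - Pi.single k 1 - y))
      simp only [Equiv.subRight_apply] at e1
      rw [← e1]
      apply tsum_congr
      intro y
      congr 2
      ring
    · have e2 := (Equiv.addRight (Pi.single k (1 : ℤ) : Fin d → ℤ)).tsum_eq
        (fun y => srw d m y * srw d n (x + Pi.single k 1 - y))
      simp only [Equiv.coe_addRight] at e2
      rw [← e2]
      apply tsum_congr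
      intro y
      congr 2
      ring

lemma l1_finite {d : ℕ} (K : ℕ) : {x : Fin d → ℤ | l1 x ≤ K}.Finite := by
  apply Set.Finite.subset (Set.Finite.pi' (t := fun _ : Fin d => Set.Icc (-(K : ℤ)) K)
    (fun _ => Set.finite_Icc _ _))
  intro x hx k
  simp only [Set.mem_ofPred_eq, l1] at hx
  have h1 : (x k).natAbs ≤ K :=
    le_trans (Finset.single_le_sum (f := fun k => (x k).natAbs) (fun _ _ => Nat.zero_le _)
      (Finset.mem_univ k)) hx
  rw [Set.mem_Icc]
  omega

/-- the mass of the support -/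
lemma pr_mass (d : ℕ) (hd : 0 < d) (m : ℕ) (s : Finset (Fin d → ℤ))
    (hs : ∀ x, l1 x ≤ m → x ∈ s) : ∑ x ∈ s, pr d m x = 1 := by
  have h1 := srw_mass d hd m
  rw [tsum_eq_sum (s := s)] at h1
  · simp only [srw_eq d hd] at h1
    rw [← ENNReal.ofReal_sum_of_nonneg (fun x _ => pr_nonneg _ _ _)] at h1
    have h2 := congrArg ENNReal.toReal h1
    rw [ENNReal.toReal_ofReal (Finset.sum_nonneg fun x _ => pr_nonneg _ _ _)] at h2
    simpa using h2
  · intro x hx
    apply srw_supp d hd
    by_contra h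
    exact hx (hs x (by omega))

/-- the return probability is not too small -/
lemma pr_return (d : ℕ) (hd : 0 < d) (k : ℕ) :
    1 / (2 * (k : ℝ) + 1) ^ d ≤ pr d (k + k) 0 := by
  classical
  set box : Finset (Fin d → ℤ) := Fintype.piFinset (fun _ => Finset.Icc (-(k : ℤ)) k) with hbox
  have hb : ∀ x : Fin d → ℤ, l1 x ≤ k → x ∈ box := by
    intro x hx
    rw [hbox, Fintype.mem_piFinset]
    intro j
    have h1 : (x j).natAbs ≤ k :=
      le_trans (Finset.single_le_sum (f := fun k => (x k).natAbs) (fun _ _ => Nat.zero_le _)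
        (Finset.mem_univ j)) hx
    rw [Finset.mem_Icc]
    omega
  have hcard : (box.card : ℝ) = (2 * (k : ℝ) + 1) ^ d := by
    rw [hbox, Fintype.card_piFinset_const]
    rw [Int.card_Icc]
    push_cast
    congr 1
    have : ((k : ℤ) + 1 - -(k : ℤ)).toNat = 2 * k + 1 := by omega
    rw [this]
    push_cast
    ring
  have h1 : pr d (k + k) 0 = ∑ y ∈ box, pr d k y ^ 2 := by
    have h2 := srw_add d hd k k 0
    rw [tsum_eq_sum (s := box)] at h2
    · have h3 : ∀ y, srw d k y * srw d k (0 - y) = ENNReal.ofReal (pr d k y ^ 2) := by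
        intro y
        rw [zero_sub, srw_neg d hd, srw_eq d hd, ← ENNReal.ofReal_mul (pr_nonneg _ _ _), sq]
      simp only [h3] at h2
      rw [srw_eq d hd, ← ENNReal.ofReal_sum_of_nonneg (fun x _ => sq_nonneg _)] at h2
      exact (ENNReal.ofReal_eq_ofReal_iff (pr_nonneg _ _ _)
        (Finset.sum_nonneg fun x _ => sq_nonneg _)).mp h2
    · intro y hy
      rw [srw_supp d hd k y, zero_mul]
      by_contra h
      exact hy (hb y (by omega))
  have h2 : (∑ y ∈ box, pr d k y) ^ 2 ≤ box.card * ∑ y ∈ box, pr d k y ^ 2 :=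
    sq_sum_le_card_mul_sum_sq
  rw [pr_mass d hd k box hb, ← h1, hcard] at h2
  have hpos : (0 : ℝ) < (2 * (k : ℝ) + 1) ^ d := by positivity
  rw [div_le_iff₀ hpos]
  linarith

end Pool.Agent.R165.SRW
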