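import Pool.Agent.R165.SRW.A

open scoped BigOperators ENNReal
open AddMonoidAlgebra

namespace Pool.Agent.R165.SRW

lemma centralBinom_sq (k : ℕ) : (Nat.centralBinom k) ^ 2 * (2 * k + 1) ≤ 16 ^ k := by
  induction k with
  | zero => simp
  | succ k ih =>
    have h := Nat.succ_mul_centralBinom_succ k
    have h1 : (k + 1) ^ 2 * (Nat.centralBinom (k + 1) ^ 2 * (2 * (k + 1) + 1)) ≤
        (k + 1) ^ 2 * 16 ^ (k + 1) := by
      calc (k + 1) ^ 2 * (Nat.centralBinom (k + 1) ^ 2 * (2 * (k + 1) + 1))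
          = ((k + 1) * Nat.centralBinom (k + 1)) ^ 2 * (2 * k + 3) := by ring
        _ = (2 * (2 * k + 1) * Nat.centralBinom k) ^ 2 * (2 * k + 3) := by rw [h]
        _ = (Nat.centralBinom k ^ 2 * (2 * k + 1)) * (4 * (2 * k + 1) * (2 * k + 3)) := by ring
        _ ≤ 16 ^ k * (4 * (2 * k + 1) * (2 * k + 3)) := Nat.mul_le_mul_right _ ih
        _ ≤ 16 ^ k * (16 * (k + 1) ^ 2) := by
            apply Nat.mul_le_mul_left
            nlinarith
        _ = (k + 1) ^ 2 * 16 ^ (k + 1) := by ring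
    exact Nat.le_of_mul_le_mul_left h1 (by positivity)

lemma choose_half_sq (n : ℕ) : (Nat.choose n (n / 2)) ^ 2 * (n + 1) ≤ 4 ^ n := by
  rcases Nat.even_or_odd' n with ⟨k, rfl | rfl⟩
  · have h := centralBinom_sq k
    rw [Nat.centralBinom_eq_two_mul_choose] at h
    rw [show 2 * k / 2 = k by omega, pow_mul]
    exact h
  · have h := centralBinom_sq (k + 1)
    rw [Nat.centralBinom_eq_two_mul_choose] at h
    have h1 : Nat.choose (2 * (k + 1)) (k + 1) = 2 * Nat.choose (2 * k + 1) k := by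
      rw [show 2 * (k + 1) = (2 * k + 1) + 1 by ring, Nat.choose_succ_succ' (2 * k + 1) k,
        Nat.choose_symm_half]
      ring
    rw [h1] at h
    rw [show (2 * k + 1) / 2 = k by omega]
    have h2 : 16 ^ (k + 1) = 4 * 4 ^ (2 * k + 1) := by
      rw [show (16 : ℕ) = 4 ^ 2 by norm_num, ← pow_mul]
      rw [show 2 * (k + 1) = (2 * k + 1) + 1 by ring, pow_succ]
      ring
    rw [h2] at h
    nlinarith [h, sq_nonneg (Nat.choose (2 * k + 1) k)]

noncomputable def ww (d : ℕ) (i : Fin d) : AddMonoidAlgebra ℝ (Fin d → ℤ) :=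
  single (Pi.single i (1 : ℤ)) (q d) + single (-(Pi.single i (1 : ℤ))) (q d)

noncomputable def gam (d n : ℕ) : ℝ := q d ^ n * (Nat.choose n (n / 2) : ℝ)

lemma gam_nonneg (d n : ℕ) : 0 ≤ gam d n := by
  unfold gam
  have := q_nonneg d
  positivity

lemma ww_pow (d : ℕ) (i : Fin d) (n : ℕ) :
    ww d i ^ n = ∑ m ∈ Finset.range (n + 1),
      single (Pi.single i (2 * (m : ℤ) - n)) (q d ^ n * (Nat.choose n m : ℝ)) := by
  unfold ww
  rw [add_pow]
  apply Finset.sum_congr rfl
  intro m hm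
  have hm' : m ≤ n := by rw [Finset.mem_range] at hm; omega
  rw [AddMonoidAlgebra.single_pow, AddMonoidAlgebra.single_pow,
    AddMonoidAlgebra.single_mul_single, AddMonoidAlgebra.natCast_def,
    AddMonoidAlgebra.single_mul_single, ← pow_add, Nat.add_sub_cancel' hm', add_zero]
  congr 1
  ext j
  by_cases hj : j = i
  · subst hj
    simp only [Pi.add_apply, Pi.smul_apply, Pi.neg_apply, Pi.single_eq_same]
    simp only [nsmul_eq_mul]
    push_cast [Nat.cast_sub hm']
    ring
  · simp [Pi.single_eq_of_ne hj]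

lemma prod_bound (d : ℕ) (n : Fin d → ℕ) (s : Finset (Fin d)) :
    ∀ x, 0 ≤ (∏ i ∈ s, ww d i ^ n i).coeff x ∧
      (∏ i ∈ s, ww d i ^ n i).coeff x ≤ ∏ i ∈ s, gam d (n i) ∧
      ((∃ j, j ∉ s ∧ x j ≠ 0) → (∏ i ∈ s, ww d i ^ n i).coeff x = 0) := by
  classical
  induction s using Finset.induction_on with
  | empty =>
    intro x
    simp only [Finset.prod_empty]
    rw [AddMonoidAlgebra.one_def, AddMonoidAlgebra.coeff_single, Finsupp.single_apply]
    refine ⟨by split_ifs <;> norm_num, by split_ifs <;> norm_num, ?_⟩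
    rintro ⟨j, -, hj⟩
    rw [if_neg]
    rintro rfl
    exact hj rfl
  | insert a s ha ih =>
    intro x
    set f := ∏ i ∈ s, ww d i ^ n i with hf
    rw [Finset.prod_insert ha, ← hf]
    rw [Finset.prod_insert ha]
    have hexp : (ww d a ^ n a * f).coeff x = ∑ m ∈ Finset.range (n a + 1),
        (q d ^ n a * (Nat.choose (n a) m : ℝ)) *
          f.coeff (-(Pi.single a (2 * (m : ℤ) - n a)) + x) := by
      rw [ww_pow, Finset.sum_mul, AddMonoidAlgebra.coeff_sum, Finsupp.finsetSum_apply]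
      apply Finset.sum_congr rfl
      intro m _
      rw [AddMonoidAlgebra.coeff_single_mul_apply]
    have hq := q_nonneg d
    refine ⟨?_, ?_, ?_⟩
    · rw [hexp]
      apply Finset.sum_nonneg
      intro m _
      exact mul_nonneg (by positivity) (ih _).1
    · rw [hexp]
      have hz : ∀ m ∈ Finset.range (n a + 1), x a ≠ 2 * (m : ℤ) - n a →
          (q d ^ n a * (Nat.choose (n a) m : ℝ)) *
          f.coeff (-(Pi.single a (2 * (m : ℤ) - n a)) + x) = 0 := by
        intro m _ hm
        rw [(ih _).2.2 ⟨a, ha, ?_⟩, mul_zero]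
        simp only [Pi.add_apply, Pi.neg_apply, Pi.single_eq_same]
        intro h
        apply hm
        linarith
      by_cases hex : ∃ m0 ∈ Finset.range (n a + 1), x a = 2 * (m0 : ℤ) - n a
      · obtain ⟨m0, hm0, hxm⟩ := hex
        rw [Finset.sum_eq_single_of_mem m0 hm0]
        · unfold gam
          apply mul_le_mul
          · apply mul_le_mul_of_nonneg_left _ (by positivity)
            exact_mod_cast Nat.choose_le_middle m0 (n a)
          · exact (ih _).2.1
          · exact (ih _).1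
          · positivity
        · intro m hm hne
          apply hz m hm
          intro h
          apply hne
          have : (m : ℤ) = m0 := by linarith
          exact_mod_cast this
      · rw [Finset.sum_eq_zero]
        · exact mul_nonneg (gam_nonneg _ _) (Finset.prod_nonneg fun i _ => gam_nonneg _ _)
        · intro m hm
          exact hz m hm (fun h => hex ⟨m, hm, h⟩)
    · rintro ⟨j, hj, hxj⟩
      rw [Finset.mem_insert, not_or] at hj
      rw [hexp]
      apply Finset.sum_eq_zero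
      intro m _
      rw [(ih _).2.2 ⟨j, hj.2, ?_⟩, mul_zero]
      simp only [Pi.add_apply, Pi.neg_apply, Pi.single_eq_of_ne hj.1]
      simpa using hxj

lemma multi_sum (d : ℕ) (hd : 0 < d) (m : ℕ) :
    ∑ n ∈ Finset.piAntidiag (Finset.univ : Finset (Fin d)) m,
      ((Nat.multinomial Finset.univ n : ℕ) : ℝ) * ∏ i, (1 / ((n i : ℝ) + 1)) ≤
      (d : ℝ) ^ (m + d) / ((m : ℝ) + 1) ^ d := by
  classical
  have h1 : ∀ n ∈ Finset.piAntidiag (Finset.univ : Finset (Fin d)) m,
      ((Nat.multinomial Finset.univ n : ℕ) : ℝ) * ∏ i, (1 / ((n i : ℝ) + 1)) =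
      ((m.factorial : ℝ) / ((m + d).factorial : ℝ)) *
        ((Nat.multinomial Finset.univ (fun i => n i + 1) : ℕ) : ℝ) := by
    intro n hn
    rw [Finset.mem_piAntidiag] at hn
    have hsum : ∑ i, n i = m := hn.1
    have e1 := Nat.multinomial_spec Finset.univ n
    have e2 := Nat.multinomial_spec Finset.univ (fun i => n i + 1)
    rw [hsum] at e1
    rw [Finset.sum_add_distrib, hsum, Finset.sum_const, Finset.card_univ, Fintype.card_fin,
      smul_eq_mul, mul_one] at e2
    have e1' : (∏ i, ((n i).factorial : ℝ)) * ((Nat.multinomial Finset.univ n : ℕ) : ℝ) =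
        (m.factorial : ℝ) := by exact_mod_cast e1
    have e2' : (∏ i, (((n i + 1).factorial : ℕ) : ℝ)) *
        ((Nat.multinomial Finset.univ (fun i => n i + 1) : ℕ) : ℝ) =
        ((m + d).factorial : ℝ) := by exact_mod_cast e2
    have e3 : (∏ i, (((n i + 1).factorial : ℕ) : ℝ)) =
        (∏ i, ((n i : ℝ) + 1)) * ∏ i, ((n i).factorial : ℝ) := by
      rw [← Finset.prod_mul_distrib]
      apply Finset.prod_congr rfl
      intro i _
      rw [Nat.factorial_succ]
      push_cast
      ring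
    have p1 : (0 : ℝ) < ∏ i, ((n i).factorial : ℝ) :=
      Finset.prod_pos fun i _ => by exact_mod_cast Nat.factorial_pos _
    have p2 : (0 : ℝ) < ∏ i, ((n i : ℝ) + 1) := Finset.prod_pos fun i _ => by positivity
    have p3 : (0 : ℝ) < ((m + d).factorial : ℝ) := by exact_mod_cast Nat.factorial_pos _
    rw [Finset.prod_div_distrib, Finset.prod_const_one]
    rw [e3] at e2'
    rw [← e1', ← e2']
    have p4 : (0 : ℝ) < ((Nat.multinomial Finset.univ (fun i => n i + 1) : ℕ) : ℝ) := by
      by_contra hcon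
      have hz : ((Nat.multinomial Finset.univ (fun i => n i + 1) : ℕ) : ℝ) = 0 :=
        le_antisymm (not_lt.mp hcon) (Nat.cast_nonneg _)
      rw [hz, mul_zero] at e2'
      exact p3.ne e2'
    field_simp
  rw [Finset.sum_congr rfl h1, ← Finset.mul_sum]
  have h2 : ∑ n ∈ Finset.piAntidiag (Finset.univ : Finset (Fin d)) m,
      ((Nat.multinomial Finset.univ (fun i => n i + 1) : ℕ) : ℝ) ≤ (d : ℝ) ^ (m + d) := by
    have h3 := Finset.sum_pow_eq_sum_piAntidiag (Finset.univ : Finset (Fin d))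
      (fun _ => (1 : ℝ)) (m + d)
    simp only [Finset.sum_const, Finset.card_univ, Fintype.card_fin, nsmul_eq_mul, mul_one,
      one_pow, Finset.prod_const_one] at h3
    rw [h3]
    rw [← Finset.sum_image (s := Finset.piAntidiag (Finset.univ : Finset (Fin d)) m)
      (g := fun n : Fin d → ℕ => (fun i => n i + 1))
      (f := fun n => ((Nat.multinomial Finset.univ n : ℕ) : ℝ))]
    · apply Finset.sum_le_sum_of_subset_of_nonneg
      · intro n hn
        rw [Finset.mem_image] at hn
        obtain ⟨n', hn', rfl⟩ := hn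
        rw [Finset.mem_piAntidiag] at hn' ⊢
        refine ⟨?_, fun i _ => Finset.mem_univ _⟩
        rw [Finset.sum_add_distrib, hn'.1]
        simp
      · intro _ _ _
        positivity
    · intro a _ b _ hab
      funext i
      have := congrFun hab i
      simpa using this
  have h3 : (m.factorial : ℝ) / ((m + d).factorial : ℝ) ≤ 1 / ((m : ℝ) + 1) ^ d := by
    have h4 := Nat.factorial_mul_pow_le_factorial (m := m) (n := d)
    have h5 : (m.factorial : ℝ) * ((m : ℝ) + 1) ^ d ≤ ((m + d).factorial : ℝ) := by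
      exact_mod_cast h4
    have p3 : (0 : ℝ) < ((m + d).factorial : ℝ) := by exact_mod_cast Nat.factorial_pos _
    rw [div_le_div_iff₀ p3 (by positivity), one_mul]
    exact h5
  calc (m.factorial : ℝ) / ((m + d).factorial : ℝ) *
        ∑ n ∈ Finset.piAntidiag (Finset.univ : Finset (Fin d)) m,
          ((Nat.multinomial Finset.univ (fun i => n i + 1) : ℕ) : ℝ)
      ≤ (1 / ((m : ℝ) + 1) ^ d) * (d : ℝ) ^ (m + d) :=
        mul_le_mul h3 h2 (Finset.sum_nonneg fun _ _ => Nat.cast_nonneg _) (by positivity)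
    _ = _ := by ring

/-- heat kernel bound -/
theorem pr_sq_le (d : ℕ) (hd : 0 < d) (m : ℕ) (x : Fin d → ℤ) :
    pr d m x ^ 2 ≤ (d : ℝ) ^ d / ((m : ℝ) + 1) ^ d := by
  classical
  have hdR : (0 : ℝ) < d := by exact_mod_cast hd
  set A := Finset.piAntidiag (Finset.univ : Finset (Fin d)) m with hA
  have h1 : pr d m x ≤ ∑ n ∈ A, ((Nat.multinomial Finset.univ n : ℕ) : ℝ) * ∏ i, gam d (n i) := by
    have e0 : pr d m x = ∑ n ∈ A, ((Nat.multinomial Finset.univ n : ℕ) : ℝ) *
        (∏ i, ww d i ^ n i).coeff x := by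
      unfold pr
      have : uu d = ∑ i, ww d i := rfl
      rw [this, Finset.sum_pow_eq_sum_piAntidiag, AddMonoidAlgebra.coeff_sum,
        Finsupp.finsetSum_apply]
      apply Finset.sum_congr rfl
      intro n _
      rw [AddMonoidAlgebra.natCast_def, AddMonoidAlgebra.coeff_single_mul_apply]
      simp
    rw [e0]
    apply Finset.sum_le_sum
    intro n _
    exact mul_le_mul_of_nonneg_left (prod_bound d n Finset.univ x).2.1 (Nat.cast_nonneg _)
  have hmul : ∑ n ∈ A, ((Nat.multinomial Finset.univ n : ℕ) : ℝ) = (d : ℝ) ^ m := by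
    have h3 := Finset.sum_pow_eq_sum_piAntidiag (Finset.univ : Finset (Fin d))
      (fun _ => (1 : ℝ)) m
    simp only [Finset.sum_const, Finset.card_univ, Fintype.card_fin, nsmul_eq_mul, mul_one,
      one_pow, Finset.prod_const_one] at h3
    rw [h3]
  have hgam : ∀ n : ℕ, gam d n ^ 2 ≤ (1 / (d : ℝ) ^ (2 * n)) * (1 / ((n : ℝ) + 1)) := by
    intro n
    have h := choose_half_sq n
    have h' : ((Nat.choose n (n / 2) : ℕ) : ℝ) ^ 2 * ((n : ℝ) + 1) ≤ 4 ^ n := by exact_mod_cast h
    unfold gam q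
    have e : ((1 / (2 * (d : ℝ))) ^ n * ((Nat.choose n (n / 2) : ℕ) : ℝ)) ^ 2 =
        (1 / (d : ℝ) ^ (2 * n)) * (((Nat.choose n (n / 2) : ℕ) : ℝ) ^ 2 / 4 ^ n) := by
      rw [mul_pow, ← pow_mul, one_div_pow, mul_pow, mul_comm n 2, pow_mul (2 : ℝ) 2 n]
      norm_num
      field_simp
    rw [e]
    apply mul_le_mul_of_nonneg_left _ (by positivity)
    rw [div_le_div_iff₀ (by positivity) (by positivity), one_mul]
    exact h'
  have hCS := Finset.sum_sq_le_sum_mul_sum_of_sq_le_mul A
    (r := fun n => ((Nat.multinomial Finset.univ n : ℕ) : ℝ) * ∏ i, gam d (n i))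
    (f := fun n => ((Nat.multinomial Finset.univ n : ℕ) : ℝ))
    (g := fun n => ((Nat.multinomial Finset.univ n : ℕ) : ℝ) * (∏ i, gam d (n i)) ^ 2)
    (fun _ _ => Nat.cast_nonneg _) (fun _ _ => by positivity) (fun n _ => le_of_eq (by ring))
  rw [hmul] at hCS
  have h2 : ∑ n ∈ A, ((Nat.multinomial Finset.univ n : ℕ) : ℝ) * (∏ i, gam d (n i)) ^ 2 ≤
      (1 / (d : ℝ) ^ (2 * m)) * ((d : ℝ) ^ (m + d) / ((m : ℝ) + 1) ^ d) := by
    calc ∑ n ∈ A, ((Nat.multinomial Finset.univ n : ℕ) : ℝ) * (∏ i, gam d (n i)) ^ 2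
        ≤ ∑ n ∈ A, (1 / (d : ℝ) ^ (2 * m)) * (((Nat.multinomial Finset.univ n : ℕ) : ℝ) *
            ∏ i, (1 / ((n i : ℝ) + 1))) := by
          apply Finset.sum_le_sum
          intro n hn
          rw [hA, Finset.mem_piAntidiag] at hn
          have hsum : ∑ i, n i = m := hn.1
          have : (∏ i, gam d (n i)) ^ 2 ≤ (1 / (d : ℝ) ^ (2 * m)) * ∏ i, (1 / ((n i : ℝ) + 1)) := by
            rw [← Finset.prod_pow]
            calc ∏ i, gam d (n i) ^ 2 ≤ ∏ i, ((1 / (d : ℝ) ^ (2 * n i)) * (1 / ((n i : ℝ) + 1))) :=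
                  Finset.prod_le_prod (fun i _ => sq_nonneg _) (fun i _ => hgam (n i))
              _ = _ := by
                  rw [Finset.prod_mul_distrib]
                  congr 1
                  rw [Finset.prod_div_distrib, Finset.prod_const_one, Finset.prod_pow_eq_pow_sum,
                    ← Finset.mul_sum, hsum]
          calc ((Nat.multinomial Finset.univ n : ℕ) : ℝ) * (∏ i, gam d (n i)) ^ 2
              ≤ ((Nat.multinomial Finset.univ n : ℕ) : ℝ) *
                ((1 / (d : ℝ) ^ (2 * m)) * ∏ i, (1 / ((n i : ℝ) + 1))) :=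
                mul_le_mul_of_nonneg_left this (Nat.cast_nonneg _)
            _ = _ := by ring
      _ = (1 / (d : ℝ) ^ (2 * m)) * ∑ n ∈ A, (((Nat.multinomial Finset.univ n : ℕ) : ℝ) *
            ∏ i, (1 / ((n i : ℝ) + 1))) := by rw [Finset.mul_sum]
      _ ≤ _ := mul_le_mul_of_nonneg_left (multi_sum d hd m) (by positivity)
  calc pr d m x ^ 2 ≤ (∑ n ∈ A, ((Nat.multinomial Finset.univ n : ℕ) : ℝ) *
        ∏ i, gam d (n i)) ^ 2 := pow_le_pow_left₀ (pr_nonneg _ _ _) h1 2
    _ ≤ (d : ℝ) ^ m * ((1 / (d : ℝ) ^ (2 * m)) * ((d : ℝ) ^ (m + d) / ((m : ℝ) + 1) ^ d)) :=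
        le_trans hCS (mul_le_mul_of_nonneg_left h2 (by positivity))
    _ = (d : ℝ) ^ d / ((m : ℝ) + 1) ^ d := by
        rw [pow_add, two_mul, pow_add]
        field_simp

end Pool.Agent.R165.SRW
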