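import Pool.Agent.R165.SRW.B

open scoped BigOperators ENNReal Topology
open Filter AddMonoidAlgebra

namespace Pool.Agent.R165.SRW

/-- product formula -/
lemma tsum_pi_prod {α : Type*} (f : α → ℝ≥0∞) (N : ℕ) :
    ∑' r : Fin N → α, ∏ i, f (r i) = (∑' a, f a) ^ N := by
  induction N with
  | zero => simp
  | succ N ih =>
    rw [← (Fin.consEquiv (fun _ : Fin (N + 1) => α)).tsum_eq, ENNReal.tsum_prod']
    simp only [Fin.consEquiv_apply, Fin.prod_univ_succ, Fin.cons_zero, Fin.cons_succ]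
    simp only [ENNReal.tsum_mul_left, ih, ENNReal.tsum_mul_right]
    rw [pow_succ']

/-- decreasing majorant of the heat kernel -/
noncomputable def hh (d N s : ℕ) : ℝ≥0∞ :=
  ENNReal.ofReal (Real.sqrt ((2 * (d : ℝ)) ^ d) * ((s : ℝ) + 1) ^ (-((N : ℝ) + 1 / 2)))

lemma srw_le_hh (d N : ℕ) (hd : 2 * N < d) (s m : ℕ) (hs : s ≤ 2 * m) (x : Fin d → ℤ) :
    srw d m x ≤ hh d N s := by
  have hd0 : 0 < d := by omega
  rw [srw_eq d hd0]
  apply ENNReal.ofReal_le_ofReal
  have hb : 0 ≤ Real.sqrt ((2 * (d : ℝ)) ^ d) * ((s : ℝ) + 1) ^ (-((N : ℝ) + 1 / 2)) := by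
    positivity
  apply le_of_sq_le_sq _ hb
  refine le_trans (pr_sq_le d hd0 m x) ?_
  rw [mul_pow, Real.sq_sqrt (by positivity), ← Real.rpow_natCast (((s : ℝ) + 1) ^ _) 2,
    ← Real.rpow_mul (by positivity)]
  have e1 : (-((N : ℝ) + 1 / 2)) * ((2 : ℕ) : ℝ) = -((2 * N + 1 : ℕ) : ℝ) := by
    push_cast; ring
  rw [e1, Real.rpow_neg (by positivity), Real.rpow_natCast, mul_pow]
  have hsm : ((s : ℝ) + 1) / 2 ≤ (m : ℝ) + 1 := by
    have : (s : ℝ) ≤ 2 * m := by exact_mod_cast hs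
    linarith
  have h2 : ((s : ℝ) + 1) ^ (2 * N + 1) ≤ ((s : ℝ) + 1) ^ d :=
    pow_le_pow_right₀ (by have : (0 : ℝ) ≤ s := Nat.cast_nonneg s; linarith) hd
  have h3 : (((s : ℝ) + 1) / 2) ^ d ≤ ((m : ℝ) + 1) ^ d :=
    pow_le_pow_left₀ (by positivity) hsm d
  rw [div_pow, div_le_iff₀ (by positivity)] at h3
  rw [← div_eq_mul_inv, div_le_div_iff₀ (by positivity) (by positivity)]
  have hdd : (0 : ℝ) ≤ (d : ℝ) ^ d := by positivity
  calc (d : ℝ) ^ d * ((s : ℝ) + 1) ^ (2 * N + 1)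
      ≤ (d : ℝ) ^ d * (((m : ℝ) + 1) ^ d * 2 ^ d) :=
        mul_le_mul_of_nonneg_left (le_trans h2 h3) hdd
    _ = _ := by ring

lemma summable_int_one_add (α : ℝ) (hα : 1 < α) :
    Summable (fun k : ℤ => (1 + |(k : ℝ)|) ^ (-α)) := by
  have h1 := Real.summable_abs_int_rpow hα
  have h2 : Summable (fun k : ℤ => if k = 0 then (1 : ℝ) else 0) :=
    summable_of_ne_finset_zero (s := {0}) (fun k hk => by simp at hk; simp [hk])
  apply Summable.of_nonneg_of_le (fun k => by positivity) _ (h1.add h2)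
  intro k
  by_cases hk : k = 0
  · subst hk
    simp only [Int.cast_zero, abs_zero, add_zero, Real.one_rpow, if_true]
    have : (0 : ℝ) ≤ 0 ^ (-α) := Real.rpow_nonneg le_rfl _
    linarith
  · rw [if_neg hk, add_zero]
    have hk' : 0 < |(k : ℝ)| := abs_pos.mpr (by exact_mod_cast hk)
    apply Real.rpow_le_rpow_of_nonpos hk' (by linarith) (by linarith)

lemma hh_sum (d N : ℕ) (hN : 1 ≤ N) : ∑' r : Fin N → ℤ, hh d N (l1 r) ≠ ⊤ := by
  have hN' : (0 : ℝ) < N := by exact_mod_cast hN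
  set α : ℝ := ((N : ℝ) + 1 / 2) / N with hα
  have hα1 : 1 < α := by
    rw [hα, lt_div_iff₀ hN']; linarith
  have hle : ∀ r : Fin N → ℤ, hh d N (l1 r) ≤
      ENNReal.ofReal (Real.sqrt ((2 * (d : ℝ)) ^ d)) *
        ∏ i, ENNReal.ofReal ((1 + |(r i : ℝ)|) ^ (-α)) := by
    intro r
    unfold hh
    rw [ENNReal.ofReal_mul (by positivity)]
    apply mul_le_mul_right
    rw [← ENNReal.ofReal_prod_of_nonneg (fun i _ => by positivity)]
    apply ENNReal.ofReal_le_ofReal
    have e1 : ((l1 r : ℝ) + 1) ^ (-((N : ℝ) + 1 / 2)) =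
        ∏ _i : Fin N, ((l1 r : ℝ) + 1) ^ (-α) := by
      rw [Finset.prod_const, Finset.card_univ, Fintype.card_fin, ← Real.rpow_natCast,
        ← Real.rpow_mul (by positivity)]
      congr 1
      rw [hα]
      field_simp
    rw [e1]
    apply Finset.prod_le_prod (fun i _ => by positivity)
    intro i _
    apply Real.rpow_le_rpow_of_nonpos (by positivity) _ (by linarith)
    have h1 : (r i).natAbs ≤ l1 r :=
      Finset.single_le_sum (f := fun k => (r k).natAbs) (fun _ _ => Nat.zero_le _)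
        (Finset.mem_univ i)
    have h2 : |(r i : ℝ)| = ((r i).natAbs : ℝ) := by
      rw [Nat.cast_natAbs]; push_cast; rfl
    rw [h2]
    have : ((r i).natAbs : ℝ) ≤ (l1 r : ℝ) := by exact_mod_cast h1
    linarith
  apply ne_top_of_le_ne_top _ (ENNReal.tsum_le_tsum hle)
  rw [ENNReal.tsum_mul_left,
    tsum_pi_prod (fun k : ℤ => ENNReal.ofReal ((1 + |(k : ℝ)|) ^ (-α))) N]
  exact ENNReal.mul_ne_top ENNReal.ofReal_ne_top
    (ENNReal.pow_ne_top (summable_int_one_add α hα1).tsum_ofReal_ne_top)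

/-- Green function of the walk. -/
noncomputable def green (d : ℕ) (x : Fin d → ℤ) : ℝ≥0∞ := ∑' n : ℕ, srw d n x

/-- `N`-fold convolution of the Green function. -/
noncomputable def greenConv (d : ℕ) : ℕ → (Fin d → ℤ) → ℝ≥0∞
  | 0, x => if x = 0 then 1 else 0
  | N + 1, x => ∑' y, green d y * greenConv d N (x - y)

/-- sum over multi-times -/
noncomputable def GN (d N : ℕ) (x : Fin d → ℤ) : ℝ≥0∞ := ∑' n : Fin N → ℕ, srw d (∑ i, n i) x

theorem greenConv_eq (d : ℕ) (hd : 0 < d) (N : ℕ) (x : Fin d → ℤ) :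
    greenConv d N x = GN d N x := by
  induction N generalizing x with
  | zero =>
    unfold GN
    simp [greenConv, srw]
  | succ N ih =>
    unfold GN
    rw [← (Fin.consEquiv (fun _ : Fin (N + 1) => ℕ)).tsum_eq, ENNReal.tsum_prod']
    simp only [Fin.consEquiv_apply, Fin.sum_univ_succ, Fin.cons_zero, Fin.cons_succ]
    simp only [srw_add d hd]
    simp only [greenConv, green, ih, GN]
    have h1 : ∀ k : ℕ, ∑' (n : Fin N → ℕ), ∑' (y : Fin d → ℤ),
        srw d k y * srw d (∑ i, n i) (x - y) =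
        ∑' (y : Fin d → ℤ), srw d k y * ∑' (n : Fin N → ℕ), srw d (∑ i, n i) (x - y) := by
      intro k
      rw [ENNReal.tsum_comm]
      simp only [ENNReal.tsum_mul_left]
    simp only [h1]
    rw [ENNReal.tsum_comm]
    simp only [ENNReal.tsum_mul_right]

lemma GN_ne_top (d N : ℕ) (hN : 1 ≤ N) (hd : 2 * N < d) (x : Fin d → ℤ) : GN d N x ≠ ⊤ := by
  apply ne_top_of_le_ne_top (hh_sum d N hN)
  have hinj : Function.Injective (fun (n : Fin N → ℕ) (i : Fin N) => (n i : ℤ)) := by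
    intro a b hab
    funext i
    have := congrFun hab i
    simpa using this
  refine le_trans ?_ (ENNReal.tsum_comp_le_tsum_of_injective hinj (fun r => hh d N (l1 r)))
  apply ENNReal.tsum_le_tsum
  intro n
  apply srw_le_hh d N hd
  simp only [l1, Int.natAbs_natCast]
  omega

lemma GN_neg (d N : ℕ) (hd : 0 < d) (x : Fin d → ℤ) : GN d N (-x) = GN d N x := by
  unfold GN
  simp only [srw_neg d hd]

lemma srw_le_GN (d N : ℕ) (hN : 1 ≤ N) (m : ℕ) (x : Fin d → ℤ) : srw d m x ≤ GN d N x := by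
  unfold GN
  refine le_trans (le_of_eq ?_) (ENNReal.le_tsum (Pi.single ⟨0, hN⟩ m))
  simp

end Pool.Agent.R165.SRW
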