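import Pool.Agent.R165.SRW.C

open scoped BigOperators ENNReal Topology
open Filter AddMonoidAlgebra

namespace Pool.Agent.R165.SRW

/-- signed unit steps -/
def st {d : ℕ} (c : Fin d × Bool) : Fin d → ℤ :=
  if c.2 then Pi.single c.1 1 else -(Pi.single c.1 1)

lemma l1_st {d : ℕ} (c : Fin d × Bool) : l1 (st c) = 1 := by
  unfold st
  split_ifs
  · exact l1_single _
  · rw [l1_neg]; exact l1_single _

lemma uu_eq (d : ℕ) : uu d = ∑ c : Fin d × Bool, single (st c) (q d) := by
  unfold uu st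
  rw [Fintype.sum_prod_type]
  simp

noncomputable def vv {d : ℕ} (c : Fin d × Bool) : AddMonoidAlgebra ℝ (Fin d → ℤ) :=
  ∑ c' ∈ Finset.univ.erase c, single (st c') (q d)

lemma uu_split {d : ℕ} (c : Fin d × Bool) : uu d = single (st c) (q d) + vv c := by
  rw [uu_eq, vv]
  exact (Finset.add_sum_erase _ (fun c' => single (st c') (q d)) (Finset.mem_univ c)).symm

lemma q_le (d : ℕ) (hd : 0 < d) : q d ≤ 1 / 2 := by
  unfold q
  have : (1 : ℝ) ≤ d := by exact_mod_cast hd
  rw [div_le_div_iff₀ (by positivity) (by norm_num)]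
  linarith

lemma q_pos (d : ℕ) (hd : 0 < d) : 0 < q d := by
  unfold q
  have : (0 : ℝ) < d := by exact_mod_cast hd
  positivity

lemma vv_pow {d : ℕ} (hd : 0 < d) (c : Fin d × Bool) (j : ℕ) (x : Fin d → ℤ) :
    0 ≤ ((vv c) ^ j).coeff x ∧ ((vv c) ^ j).coeff x ≤ (1 - q d) ^ j := by
  have hq := q_nonneg d
  have hq1 := q_le d hd
  induction j generalizing x with
  | zero =>
    rw [pow_zero, AddMonoidAlgebra.one_def, AddMonoidAlgebra.coeff_single, Finsupp.single_apply]
    constructor <;> split_ifs <;> norm_num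
  | succ j ih =>
    have e1 : ((vv c) ^ (j + 1)).coeff x = ∑ c' ∈ Finset.univ.erase c,
        q d * ((vv c) ^ j).coeff (-(st c') + x) := by
      rw [pow_succ']
      nth_rewrite 1 [vv]
      rw [Finset.sum_mul, AddMonoidAlgebra.coeff_sum, Finsupp.finsetSum_apply]
      apply Finset.sum_congr rfl
      intro c' _
      rw [AddMonoidAlgebra.coeff_single_mul_apply]
    rw [e1]
    constructor
    · exact Finset.sum_nonneg fun c' _ => mul_nonneg hq (ih _).1
    · calc ∑ c' ∈ Finset.univ.erase c, q d * ((vv c) ^ j).coeff (-(st c') + x)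
          ≤ ∑ c' ∈ Finset.univ.erase c, q d * (1 - q d) ^ j :=
            Finset.sum_le_sum fun c' _ => mul_le_mul_of_nonneg_left (ih _).2 hq
        _ = (1 - q d) ^ (j + 1) := by
            rw [Finset.sum_const, Finset.card_erase_of_mem (Finset.mem_univ c), Finset.card_univ,
              Fintype.card_prod, Fintype.card_fin, Fintype.card_bool, nsmul_eq_mul]
            rw [Nat.cast_sub (by omega)]
            push_cast
            have : (d : ℝ) * 2 * q d = 1 := by
              unfold q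
              have : (0 : ℝ) < d := by exact_mod_cast hd
              field_simp
            rw [pow_succ]
            linear_combination ((1 - q d) ^ j) * this

noncomputable def rr {d : ℕ} (c : Fin d × Bool) (m k : ℕ) (x : Fin d → ℤ) : ℝ :=
  (Nat.choose m k : ℝ) * q d ^ k * ((vv c) ^ (m - k)).coeff (-(k • st c) + x)

lemma pr_expand {d : ℕ} (c : Fin d × Bool) (m : ℕ) (x : Fin d → ℤ) :
    pr d m x = ∑ k ∈ Finset.range (m + 1), rr c m k x := by
  unfold pr
  rw [uu_split c, add_pow, AddMonoidAlgebra.coeff_sum, Finsupp.finsetSum_apply]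
  apply Finset.sum_congr rfl
  intro k _
  unfold rr
  rw [mul_comm, AddMonoidAlgebra.natCast_def, AddMonoidAlgebra.coeff_single_mul_apply,
    AddMonoidAlgebra.single_pow, AddMonoidAlgebra.coeff_single_mul_apply, neg_zero, zero_add]
  ring

lemma rr_nonneg {d : ℕ} (hd : 0 < d) (c : Fin d × Bool) (m k : ℕ) (x : Fin d → ℤ) :
    0 ≤ rr c m k x := by
  unfold rr
  have := q_nonneg d
  exact mul_nonneg (by positivity) (vv_pow hd c _ _).1

lemma rr_succ {d : ℕ} (c : Fin d × Bool) (m k : ℕ) (x : Fin d → ℤ) :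
    ((k : ℝ) + 1) * rr c (m + 1) (k + 1) (x + st c) = ((m : ℝ) + 1) * q d * rr c m k x := by
  unfold rr
  have h1 : (m + 1) * Nat.choose m k = Nat.choose (m + 1) (k + 1) * (k + 1) :=
    Nat.add_one_mul_choose_eq m k
  have h1' : ((m : ℝ) + 1) * (Nat.choose m k : ℝ) = (Nat.choose (m + 1) (k + 1) : ℝ) * (k + 1) := by
    exact_mod_cast h1
  have h2 : -((k + 1) • st c) + (x + st c) = -(k • st c) + x := by
    rw [succ_nsmul]; abel
  rw [h2, show m + 1 - (k + 1) = m - k by omega, pow_succ]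
  linear_combination (- q d * q d ^ k * ((vv c) ^ (m - k)).coeff (-(k • st c) + x)) * h1'

/-- Chernoff bound for the binomial distribution -/
lemma chernoff (d : ℕ) (hd : 0 < d) (m : ℕ) (δ : ℝ) (h0 : 0 < δ) (h1 : δ ≤ 1) :
    ∑ k ∈ (Finset.range (m + 1)).filter (fun k : ℕ => (m : ℝ) * (q d + δ) < (k : ℝ)),
      (Nat.choose m k : ℝ) * q d ^ k * (1 - q d) ^ (m - k) ≤ Real.exp (-(m * δ ^ 2 / 2)) := by
  have hq := q_nonneg d
  have hq1 := q_le d hd
  have hq2 : 0 ≤ 1 - q d := by linarith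
  calc ∑ k ∈ (Finset.range (m + 1)).filter (fun k : ℕ => (m : ℝ) * (q d + δ) < (k : ℝ)),
        (Nat.choose m k : ℝ) * q d ^ k * (1 - q d) ^ (m - k)
      ≤ ∑ k ∈ (Finset.range (m + 1)).filter (fun k : ℕ => (m : ℝ) * (q d + δ) < (k : ℝ)),
        Real.exp (δ * (k - m * (q d + δ))) *
          ((Nat.choose m k : ℝ) * q d ^ k * (1 - q d) ^ (m - k)) := by
        apply Finset.sum_le_sum
        intro k hk
        rw [Finset.mem_filter] at hk
        have : 1 ≤ Real.exp (δ * (k - m * (q d + δ))) := by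
          apply Real.one_le_exp
          apply mul_nonneg h0.le
          linarith [hk.2]
        have h3 : 0 ≤ (Nat.choose m k : ℝ) * q d ^ k * (1 - q d) ^ (m - k) := by positivity
        nlinarith
    _ ≤ ∑ k ∈ Finset.range (m + 1), Real.exp (δ * (k - m * (q d + δ))) *
          ((Nat.choose m k : ℝ) * q d ^ k * (1 - q d) ^ (m - k)) := by
        apply Finset.sum_le_sum_of_subset_of_nonneg (Finset.filter_subset _ _)
        intro k _ _
        positivity
    _ = Real.exp (-(δ * m * (q d + δ))) * (q d * Real.exp δ + (1 - q d)) ^ m := by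
        rw [add_pow, Finset.mul_sum]
        apply Finset.sum_congr rfl
        intro k _
        rw [mul_pow, ← Real.exp_nat_mul]
        rw [show δ * ((k : ℝ) - m * (q d + δ)) = -(δ * m * (q d + δ)) + k * δ by ring, Real.exp_add]
        ring
    _ ≤ Real.exp (-(δ * m * (q d + δ))) * Real.exp (m * (q d * (Real.exp δ - 1))) := by
        apply mul_le_mul_of_nonneg_left _ (Real.exp_pos _).le
        rw [Real.exp_nat_mul]
        apply pow_le_pow_left₀ (by positivity)
        have := Real.add_one_le_exp (q d * (Real.exp δ - 1))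
        linarith
    _ = Real.exp (m * (q d * (Real.exp δ - 1 - δ) - δ ^ 2)) := by
        rw [← Real.exp_add]
        congr 1
        ring
    _ ≤ Real.exp (-(m * δ ^ 2 / 2)) := by
        apply Real.exp_le_exp.mpr
        have h4 := Real.abs_exp_sub_one_sub_id_le (x := δ) (by rw [abs_of_pos h0]; exact h1)
        have h5 := (abs_le.mp h4).2
        have h6 : q d * (Real.exp δ - 1 - δ) ≤ 1 / 2 * δ ^ 2 := by
          calc q d * (Real.exp δ - 1 - δ) ≤ q d * δ ^ 2 := mul_le_mul_of_nonneg_left h5 hq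
            _ ≤ 1 / 2 * δ ^ 2 := mul_le_mul_of_nonneg_right hq1 (sq_nonneg _)
        have h7 : (0 : ℝ) ≤ m := Nat.cast_nonneg m
        nlinarith

/-- one step comparison -/
lemma compare {d : ℕ} (hd : 0 < d) (c : Fin d × Bool) (m : ℕ) (x : Fin d → ℤ) (δ : ℝ)
    (h0 : 0 < δ) (h1 : δ ≤ 1) :
    ((m : ℝ) + 1) * q d / (m * (q d + δ) + 1) * (pr d m x - Real.exp (-(m * δ ^ 2 / 2))) ≤
      pr d (m + 1) (x + st c) := by
  have hq := q_nonneg d
  set B : ℝ := m * (q d + δ) + 1 with hB
  have hBpos : 0 < B := by positivity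
  have hm0 : (0 : ℝ) ≤ m := Nat.cast_nonneg m
  have e1 : ∑ k ∈ (Finset.range (m + 1)).filter (fun k : ℕ => ¬ (m : ℝ) * (q d + δ) < (k : ℝ)),
      ((m : ℝ) + 1) * q d / B * rr c m k x ≤ pr d (m + 1) (x + st c) := by
    rw [pr_expand c (m + 1), Finset.sum_range_succ']
    refine le_trans ?_ (le_add_of_nonneg_right (rr_nonneg hd c _ _ _))
    refine le_trans ?_ (Finset.sum_le_sum_of_subset_of_nonneg (Finset.filter_subset
      (fun k : ℕ => ¬ (m : ℝ) * (q d + δ) < (k : ℝ)) _) (fun k _ _ => rr_nonneg hd c _ _ _))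
    apply Finset.sum_le_sum
    intro k hk
    rw [Finset.mem_filter, not_lt] at hk
    have h2 := rr_succ c m k x
    have hk1 : (0 : ℝ) < (k : ℝ) + 1 := by positivity
    have h3 : rr c (m + 1) (k + 1) (x + st c) = ((m : ℝ) + 1) * q d / (k + 1) * rr c m k x := by
      field_simp
      linarith
    rw [h3]
    apply mul_le_mul_of_nonneg_right _ (rr_nonneg hd c _ _ _)
    apply div_le_div_of_nonneg_left (by positivity) hk1
    rw [hB]
    linarith [hk.2]
  refine le_trans ?_ e1
  rw [← Finset.mul_sum]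
  apply mul_le_mul_of_nonneg_left _ (by positivity)
  have e2 := Finset.sum_filter_add_sum_filter_not (Finset.range (m + 1))
    (fun k : ℕ => (m : ℝ) * (q d + δ) < (k : ℝ)) (fun k => rr c m k x)
  rw [← pr_expand c m x] at e2
  have e3 : ∑ k ∈ (Finset.range (m + 1)).filter (fun k : ℕ => (m : ℝ) * (q d + δ) < (k : ℝ)),
      rr c m k x ≤ Real.exp (-(m * δ ^ 2 / 2)) := by
    refine le_trans ?_ (chernoff d hd m δ h0 h1)
    apply Finset.sum_le_sum
    intro k _
    unfold rr
    exact mul_le_mul_of_nonneg_left (vv_pow hd c _ _).2 (by positivity)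
  linarith

/-- (A') -/
lemma compare' {d : ℕ} (hd : 0 < d) (ε : ℝ) (h0 : 0 < ε) (h1 : ε < 1) :
    ∃ c : ℝ, 0 < c ∧ ∃ m0 : ℕ, ∀ m, m0 ≤ m → ∀ (x : Fin d → ℤ) (e : Fin d × Bool),
      (1 - ε) * (pr d m x - Real.exp (-(c * m))) ≤ pr d (m + 1) (x + st e) := by
  have hq := q_pos d hd
  have hq1 := q_le d hd
  set δ : ℝ := ε * q d / 2 with hδ
  have hδ0 : 0 < δ := by positivity
  have hδ1 : δ ≤ 1 := by rw [hδ]; nlinarith
  refine ⟨δ ^ 2 / 2, by positivity, ⌈2 / (q d * ε)⌉₊, ?_⟩
  intro m hm x e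
  have hm' : 2 / (q d * ε) ≤ (m : ℝ) := le_trans (Nat.le_ceil _) (by exact_mod_cast hm)
  rw [div_le_iff₀ (by positivity)] at hm'
  by_cases hneg : pr d m x - Real.exp (-(δ ^ 2 / 2 * m)) < 0
  · have h2 : (1 - ε) * (pr d m x - Real.exp (-(δ ^ 2 / 2 * m))) ≤ 0 :=
      mul_nonpos_of_nonneg_of_nonpos (by linarith) hneg.le
    exact le_trans h2 (pr_nonneg _ _ _)
  · rw [not_lt] at hneg
    have h3 := compare hd e m x δ hδ0 hδ1
    rw [show -(m * δ ^ 2 / 2 : ℝ) = -(δ ^ 2 / 2 * m) by ring] at h3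
    refine le_trans ?_ h3
    apply mul_le_mul_of_nonneg_right _ hneg
    have hm0 : (0 : ℝ) ≤ m := Nat.cast_nonneg m
    rw [le_div_iff₀ (by positivity), hδ]
    have h4 : (1 - ε) * (1 + ε / 2) ≤ 1 - ε / 2 := by nlinarith
    have h5 : (m : ℝ) * q d * ((1 - ε) * (1 + ε / 2)) ≤ m * q d * (1 - ε / 2) :=
      mul_le_mul_of_nonneg_left h4 (by positivity)
    nlinarith

lemma exists_step {d : ℕ} (z : Fin d → ℤ) (r : ℕ) (h : l1 z = r + 1) :
    ∃ e : Fin d × Bool, l1 (z - st e) = r := by
  have h1 : ∃ k, z k ≠ 0 := by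
    by_contra hcon
    push Not at hcon
    have : l1 z = 0 := by
      unfold l1
      apply Finset.sum_eq_zero
      intro k _
      rw [hcon k]; rfl
    omega
  obtain ⟨k, hk⟩ := h1
  have key : ∀ e : Fin d × Bool, e.1 = k → ((z - st e) k).natAbs + 1 = (z k).natAbs →
      l1 (z - st e) = r := by
    intro e he hek
    have e1 : l1 (z - st e) = ((z - st e) k).natAbs +
        ∑ j ∈ Finset.univ.erase k, ((z - st e) j).natAbs := by
      unfold l1
      rw [Finset.add_sum_erase _ (fun j => ((z - st e) j).natAbs) (Finset.mem_univ k)]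
    have e2 : l1 z = (z k).natAbs + ∑ j ∈ Finset.univ.erase k, (z j).natAbs := by
      unfold l1
      rw [Finset.add_sum_erase _ (fun j => (z j).natAbs) (Finset.mem_univ k)]
    have e3 : ∑ j ∈ Finset.univ.erase k, ((z - st e) j).natAbs =
        ∑ j ∈ Finset.univ.erase k, (z j).natAbs := by
      apply Finset.sum_congr rfl
      intro j hj
      have hne : j ≠ k := Finset.ne_of_mem_erase hj
      have : st e j = 0 := by
        unfold st
        split_ifs <;> simp [Pi.single_eq_of_ne (he ▸ hne : j ≠ e.1)]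
      rw [Pi.sub_apply, this, sub_zero]
    omega
  rcases lt_or_gt_of_ne hk with hneg | hpos
  · refine ⟨(k, false), key _ rfl ?_⟩
    simp only [st, Pi.sub_apply, Bool.false_eq_true, if_false, Pi.neg_apply, Pi.single_eq_same]
    omega
  · refine ⟨(k, true), key _ rfl ?_⟩
    simp only [st, Pi.sub_apply, if_true, Pi.single_eq_same]
    omega

/-- iterated comparison -/
lemma lower_path {d : ℕ} (hd : 0 < d) (ε c : ℝ) (h0 : 0 < ε) (h1 : ε < 1) (hc : 0 < c) (m0 : ℕ)
    (H : ∀ m, m0 ≤ m → ∀ (x : Fin d → ℤ) (e : Fin d × Bool),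
      (1 - ε) * (pr d m x - Real.exp (-(c * m))) ≤ pr d (m + 1) (x + st e)) (m : ℕ) (hm : m0 ≤ m) :
    ∀ (r : ℕ) (z : Fin d → ℤ), l1 z = r →
      (1 - ε) ^ r * pr d m 0 - r * Real.exp (-(c * m)) ≤ pr d (m + r) z := by
  intro r
  induction r with
  | zero =>
    intro z hz
    have : z = 0 := by
      funext k
      unfold l1 at hz
      rw [Finset.sum_eq_zero_iff] at hz
      have := hz k (Finset.mem_univ k)
      simpa using this
    subst this
    simp
  | succ r ih =>
    intro z hz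
    obtain ⟨e, he⟩ := exists_step z r hz
    have h2 := ih _ he
    have h3 := H (m + r) (by omega) (z - st e) e
    rw [sub_add_cancel] at h3
    rw [← add_assoc]
    refine le_trans ?_ h3
    have h4 : Real.exp (-(c * ((m + r : ℕ) : ℝ))) ≤ Real.exp (-(c * m)) := by
      apply Real.exp_le_exp.mpr
      push_cast
      have : (0 : ℝ) ≤ r := Nat.cast_nonneg r
      nlinarith
    have h5 : (1 - ε) * ((1 - ε) ^ r * pr d m 0 - r * Real.exp (-(c * m)) - Real.exp (-(c * m))) ≤
        (1 - ε) * (pr d (m + r) (z - st e) - Real.exp (-(c * ((m + r : ℕ) : ℝ)))) :=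
      mul_le_mul_of_nonneg_left (by linarith) (by linarith)
    refine le_trans ?_ h5
    rw [pow_succ]
    push_cast
    have h6 : 0 < Real.exp (-(c * m)) := Real.exp_pos _
    have h7 : (0 : ℝ) ≤ r := Nat.cast_nonneg r
    nlinarith [mul_nonneg (mul_nonneg h0.le h7) h6.le, mul_nonneg h0.le h6.le]

end Pool.Agent.R165.SRW
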