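import Pool.Agent.R165.SRW.D

open scoped BigOperators ENNReal Topology
open Filter

namespace Pool.Agent.R165.SRW

lemma decay (A a : ℝ) (ha : 0 < a) (n : ℕ) :
    ∀ᶠ r : ℕ in atTop, A * ((r : ℝ) + 1) ^ n * Real.exp (-(a * r)) ≤ 1 := by
  have h1 := Real.tendsto_pow_mul_exp_neg_atTop_nhds_zero n
  have h2 : Tendsto (fun r : ℕ => a * ((r : ℝ) + 1)) atTop atTop := by
    apply Tendsto.const_mul_atTop ha
    exact tendsto_atTop_add_const_right _ _ tendsto_natCast_atTop_atTop
  have h3 := (h1.comp h2).const_mul (A * Real.exp a / a ^ n)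
  rw [mul_zero] at h3
  have h4 := h3.eventually (ge_mem_nhds (show (0 : ℝ) < 1 by norm_num))
  filter_upwards [h4] with r hr
  refine le_trans (le_of_eq ?_) hr
  simp only [Function.comp_apply]
  rw [mul_pow, show -(a * ((r : ℝ) + 1)) = -(a * r) - a by ring, Real.exp_sub]
  have := Real.exp_pos a
  field_simp

/-- subexponential lower bound -/
lemma subexp (d N : ℕ) (hd : 0 < d) (hN : 1 ≤ N) (η : ℝ) (hη : 0 < η) :
    ∃ R : ℕ, ∀ z : Fin d → ℤ, R ≤ l1 z →
      ENNReal.ofReal (Real.exp (-(η * l1 z))) ≤ GN d N z := by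
  set ε : ℝ := 1 - Real.exp (-(η / 4)) with hε
  have h0 : 0 < ε := by
    have : Real.exp (-(η / 4)) < 1 := by
      rw [Real.exp_lt_one_iff]; linarith
    linarith
  have h1 : ε < 1 := by
    have := Real.exp_pos (-(η / 4))
    linarith
  obtain ⟨c, hc, m0, H⟩ := compare' hd ε h0 h1
  set K : ℕ := ⌈η / c⌉₊ + 1 with hK
  have hKc : η ≤ 2 * K * c := by
    have h2 : η / c ≤ (⌈η / c⌉₊ : ℝ) := Nat.le_ceil _
    rw [div_le_iff₀ hc] at h2
    rw [hK]
    push_cast
    have : (0 : ℝ) ≤ (⌈η / c⌉₊ : ℝ) := Nat.cast_nonneg _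
    nlinarith
  obtain ⟨R0, hR0⟩ := (decay ((2 * K + 1 : ℝ) ^ d) (3 * η / 4) (by positivity) (d + 1)).exists_forall_of_atTop
  refine ⟨max R0 m0, fun z hz => ?_⟩
  set r := l1 z with hr
  have hr0 := hR0 r (le_trans (le_max_left _ _) hz)
  have hrm : m0 ≤ K * r + K * r := by
    have h2 : m0 ≤ r := le_trans (le_max_right _ _) hz
    have h3 : 1 ≤ K := by omega
    nlinarith
  have h3 := lower_path hd ε c h0 h1 hc m0 H (K * r + K * r) hrm r z rfl
  refine le_trans ?_ (srw_le_GN d N hN (K * r + K * r + r) z)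
  rw [srw_eq d hd]
  apply ENNReal.ofReal_le_ofReal
  refine le_trans ?_ h3
  have h4 : (1 - ε) ^ r = Real.exp (-(η / 4 * r)) := by
    rw [hε, sub_sub_cancel, ← Real.exp_nat_mul]
    congr 1
    ring
  have h5 := pr_return d hd (K * r)
  have h6 : Real.exp (-(c * ((K * r + K * r : ℕ) : ℝ))) ≤ Real.exp (-(η * r)) := by
    apply Real.exp_le_exp.mpr
    push_cast
    have : (0 : ℝ) ≤ r := Nat.cast_nonneg r
    nlinarith
  have hr' : (0 : ℝ) ≤ r := Nat.cast_nonneg r
  have h7 : ((2 * ((K * r : ℕ) : ℝ) + 1)) ^ d ≤ (2 * K + 1 : ℝ) ^ d * ((r : ℝ) + 1) ^ d := by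
    rw [← mul_pow]
    apply pow_le_pow_left₀ (by positivity)
    push_cast
    have : (0 : ℝ) ≤ K := Nat.cast_nonneg K
    nlinarith
  have h8 : ((r : ℝ) + 1) * Real.exp (-(η * r)) ≤
      Real.exp (-(η / 4 * r)) * (1 / (2 * ((K * r : ℕ) : ℝ) + 1) ^ d) := by
    rw [mul_one_div, le_div_iff₀ (by positivity)]
    calc ((r : ℝ) + 1) * Real.exp (-(η * r)) * (2 * ((K * r : ℕ) : ℝ) + 1) ^ d
        ≤ ((r : ℝ) + 1) * Real.exp (-(η * r)) * ((2 * K + 1 : ℝ) ^ d * ((r : ℝ) + 1) ^ d) :=
          mul_le_mul_of_nonneg_left h7 (by positivity)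
      _ = ((2 * K + 1 : ℝ) ^ d * ((r : ℝ) + 1) ^ (d + 1) * Real.exp (-(3 * η / 4 * r))) *
            Real.exp (-(η / 4 * r)) := by
          rw [show -(η * (r : ℝ)) = -(3 * η / 4 * r) + -(η / 4 * r) by ring, Real.exp_add, pow_succ]
          ring
      _ ≤ 1 * Real.exp (-(η / 4 * r)) :=
          mul_le_mul_of_nonneg_right hr0 (Real.exp_pos _).le
      _ = _ := one_mul _
  rw [h4]
  have h9 : Real.exp (-(η / 4 * r)) * (1 / (2 * ((K * r : ℕ) : ℝ) + 1) ^ d) ≤
      Real.exp (-(η / 4 * r)) * pr d (K * r + K * r) 0 :=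
    mul_le_mul_of_nonneg_left h5 (Real.exp_pos _).le
  have h10 : (r : ℝ) * Real.exp (-(c * ((K * r + K * r : ℕ) : ℝ))) ≤ r * Real.exp (-(η * r)) :=
    mul_le_mul_of_nonneg_left h6 hr'
  linarith

lemma err_bound (N : ℕ) (c : ℝ) (r : ℕ) (hc : 0 < c) :
    ∑' n : Fin N → ℕ, (if ∑ i, n i < r then 0 else
      ENNReal.ofReal (Real.exp (-(c * ((∑ i, n i : ℕ) : ℝ))))) ≤
    ENNReal.ofReal (Real.exp (-(c / 2 * r))) *
      (∑' k : ℕ, ENNReal.ofReal (Real.exp (-(c / 2 * k)))) ^ N := by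
  rw [← tsum_pi_prod, ← ENNReal.tsum_mul_left]
  apply ENNReal.tsum_le_tsum
  intro n
  split_ifs with h
  · exact zero_le
  · rw [not_lt] at h
    rw [← ENNReal.ofReal_prod_of_nonneg (fun i _ => (Real.exp_pos _).le),
      ← ENNReal.ofReal_mul (Real.exp_pos _).le, ← Real.exp_sum, ← Real.exp_add]
    apply ENNReal.ofReal_le_ofReal
    apply Real.exp_le_exp.mpr
    rw [Finset.sum_neg_distrib, ← Finset.mul_sum]
    push_cast
    have h' : (r : ℝ) ≤ ∑ i, (n i : ℝ) := by exact_mod_cast h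
    nlinarith

lemma geom_ne_top (c : ℝ) (hc : 0 < c) :
    ∑' k : ℕ, ENNReal.ofReal (Real.exp (-(c / 2 * k))) ≠ ⊤ := by
  apply Summable.tsum_ofReal_ne_top
  have h1 : Real.exp (-(c / 2)) < 1 := by
    rw [Real.exp_lt_one_iff]; linarith
  have h2 := summable_geometric_of_lt_one (Real.exp_pos (-(c / 2))).le h1
  apply h2.congr
  intro k
  rw [← Real.exp_nat_mul]
  congr 1
  ring

lemma GN_shift_le (d N : ℕ) (hN : 1 ≤ N) (x : Fin d → ℤ) :
    ∑' n : Fin N → ℕ, srw d (∑ i, n i + 1) x ≤ GN d N x := by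
  have hinj : Function.Injective (fun n : Fin N → ℕ => n + Pi.single ⟨0, hN⟩ 1) :=
    add_left_injective _
  refine le_trans (le_of_eq ?_) (ENNReal.tsum_comp_le_tsum_of_injective hinj
    (fun n => srw d (∑ i, n i) x))
  apply tsum_congr
  intro n
  congr 1
  simp [Finset.sum_add_distrib]

lemma step_lower (d N : ℕ) (hN : 1 ≤ N) (hd : 2 * N < d) (ε : ℝ) (h0 : 0 < ε) (h1 : ε < 1)
    (e : Fin d × Bool) :
    ∃ R : ℕ, ∀ z : Fin d → ℤ, R ≤ l1 z →
      ENNReal.ofReal (1 - ε) * GN d N z ≤ GN d N (z + st e) := by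
  have hd0 : 0 < d := by omega
  obtain ⟨c, hc, m0, H⟩ := compare' hd0 (ε / 2) (by positivity) (by linarith)
  set Kc := (∑' k : ℕ, ENNReal.ofReal (Real.exp (-(c / 2 * k)))) ^ N with hKc
  have hKt : Kc ≠ ⊤ := ENNReal.pow_ne_top (geom_ne_top c hc)
  obtain ⟨R1, hR1⟩ := subexp d N hd0 hN (c / 4) (by positivity)
  obtain ⟨R2, hR2⟩ := (decay (2 * Kc.toReal / ε) (c / 4) (by positivity) 0).exists_forall_of_atTop
  refine ⟨max m0 (max R1 R2), fun z hz => ?_⟩
  set r := l1 z with hr
  have hz1 : m0 ≤ r := le_trans (le_max_left _ _) hz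
  have hz2 : R1 ≤ r := le_trans (le_trans (le_max_left _ _) (le_max_right _ _)) hz
  have hz3 : R2 ≤ r := le_trans (le_trans (le_max_right _ _) (le_max_right _ _)) hz
  have hGz := hR1 z hz2
  rw [← hr] at hGz
  have hdec := hR2 r hz3
  rw [pow_zero, mul_one] at hdec
  -- termwise
  have hterm : ∀ m : ℕ, ENNReal.ofReal (1 - ε / 2) * srw d m z ≤ srw d (m + 1) (z + st e) +
      (if m < r then 0 else ENNReal.ofReal (Real.exp (-(c * m)))) := by
    intro m
    by_cases hm : m < r
    · rw [srw_supp d hd0 m z hm, mul_zero]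
      exact zero_le
    · rw [if_neg hm]
      rw [not_lt] at hm
      have h2 := H m (by omega) z e
      rw [srw_eq d hd0, srw_eq d hd0, ← ENNReal.ofReal_mul (by linarith),
        ← ENNReal.ofReal_add (pr_nonneg _ _ _) (Real.exp_pos _).le]
      apply ENNReal.ofReal_le_ofReal
      have := Real.exp_pos (-(c * (m : ℝ)))
      nlinarith
  have hsum : ENNReal.ofReal (1 - ε / 2) * GN d N z ≤ GN d N (z + st e) +
      ∑' n : Fin N → ℕ, (if ∑ i, n i < r then 0 else
        ENNReal.ofReal (Real.exp (-(c * ((∑ i, n i : ℕ) : ℝ))))) := by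
    calc ENNReal.ofReal (1 - ε / 2) * GN d N z
        = ∑' n : Fin N → ℕ, ENNReal.ofReal (1 - ε / 2) * srw d (∑ i, n i) z := by
          rw [ENNReal.tsum_mul_left]; rfl
      _ ≤ ∑' n : Fin N → ℕ, (srw d (∑ i, n i + 1) (z + st e) + (if ∑ i, n i < r then 0 else
        ENNReal.ofReal (Real.exp (-(c * ((∑ i, n i : ℕ) : ℝ)))))) :=
          ENNReal.tsum_le_tsum fun n => hterm _
      _ ≤ _ := by
          rw [ENNReal.tsum_add]
          gcongr
          exact GN_shift_le d N hN _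
  have herr : ∑' n : Fin N → ℕ, (if ∑ i, n i < r then 0 else
        ENNReal.ofReal (Real.exp (-(c * ((∑ i, n i : ℕ) : ℝ))))) ≤
      ENNReal.ofReal (ε / 2) * GN d N z := by
    refine le_trans (err_bound N c r hc) ?_
    rw [← hKc]
    refine le_trans ?_ (mul_le_mul_right hGz (ENNReal.ofReal (ε / 2)))
    rw [← ENNReal.ofReal_toReal hKt, ← ENNReal.ofReal_mul (Real.exp_pos _).le,
      ← ENNReal.ofReal_mul (by positivity)]
    apply ENNReal.ofReal_le_ofReal
    rw [show -(c / 2 * (r : ℝ)) = -(c / 4 * r) + -(c / 4 * r) by ring, Real.exp_add]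
    have hexp := Real.exp_pos (-(c / 4 * (r : ℝ)))
    have h3 : Real.exp (-(c / 4 * r)) * Kc.toReal ≤ ε / 2 := by
      have h4 : 2 * Kc.toReal / ε * Real.exp (-(c / 4 * r)) =
          (Real.exp (-(c / 4 * r)) * Kc.toReal) / (ε / 2) := by
        field_simp
      rw [h4, div_le_one (by positivity)] at hdec
      exact hdec
    nlinarith
  have h5 : ENNReal.ofReal (1 - ε / 2) = ENNReal.ofReal (1 - ε) + ENNReal.ofReal (ε / 2) := by
    rw [← ENNReal.ofReal_add (by linarith) (by linarith)]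
    congr 1
    ring
  have h6 : ENNReal.ofReal (1 - ε) * GN d N z + ENNReal.ofReal (ε / 2) * GN d N z ≤
      GN d N (z + st e) + ENNReal.ofReal (ε / 2) * GN d N z := by
    rw [← add_mul, ← h5]
    exact le_trans hsum (by gcongr)
  exact ENNReal.le_of_add_le_add_right
    (ENNReal.mul_ne_top ENNReal.ofReal_ne_top (GN_ne_top d N hN hd z)) h6

noncomputable def gg (d N : ℕ) (z : Fin d → ℤ) : ℝ := (GN d N z).toReal

lemma pr_pos {d : ℕ} (hd : 0 < d) : ∀ (r : ℕ) (z : Fin d → ℤ), l1 z = r → 0 < pr d r z := by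
  intro r
  induction r with
  | zero =>
    intro z hz
    have : z = 0 := by
      funext k
      unfold l1 at hz
      rw [Finset.sum_eq_zero_iff] at hz
      have := hz k (Finset.mem_univ k)
      simpa using this
    subst this
    rw [pr_zero]; simp
  | succ r ih =>
    intro z hz
    obtain ⟨e, he⟩ := exists_step z r hz
    have h1 := ih _ he
    rw [pr_succ]
    apply mul_pos (q_pos d hd)
    apply Finset.sum_pos' (fun k _ => add_nonneg (pr_nonneg _ _ _) (pr_nonneg _ _ _))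
    refine ⟨e.1, Finset.mem_univ _, ?_⟩
    unfold st at h1
    split_ifs at h1
    · exact add_pos_of_pos_of_nonneg h1 (pr_nonneg _ _ _)
    · rw [sub_neg_eq_add] at h1
      exact add_pos_of_nonneg_of_pos (pr_nonneg _ _ _) h1

lemma GN_ne_zero (d N : ℕ) (hN : 1 ≤ N) (hd : 0 < d) (z : Fin d → ℤ) : GN d N z ≠ 0 := by
  have h1 := srw_le_GN d N hN (l1 z) z
  have h2 : 0 < srw d (l1 z) z := by
    rw [srw_eq d hd, ENNReal.ofReal_pos]
    exact pr_pos hd _ z rfl
  exact (lt_of_lt_of_le h2 h1).ne'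

lemma gg_pos (d N : ℕ) (hN : 1 ≤ N) (hd : 2 * N < d) (z : Fin d → ℤ) : 0 < gg d N z :=
  ENNReal.toReal_pos (GN_ne_zero d N hN (by omega) z) (GN_ne_top d N hN hd z)

lemma eventually_l1 {d : ℕ} (R : ℕ) : ∀ᶠ z : Fin d → ℤ in cofinite, R ≤ l1 z := by
  rw [Filter.eventually_cofinite]
  apply (l1_finite R).subset
  intro z hz
  simp only [Set.mem_ofPred_eq, not_le] at hz ⊢
  exact hz.le

lemma gg_step (d N : ℕ) (hN : 1 ≤ N) (hd : 2 * N < d) (ε : ℝ) (h0 : 0 < ε) (h1 : ε < 1)
    (e : Fin d × Bool) :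
    ∀ᶠ z : Fin d → ℤ in cofinite, (1 - ε) * gg d N z ≤ gg d N (z + st e) := by
  obtain ⟨R, hR⟩ := step_lower d N hN hd ε h0 h1 e
  filter_upwards [eventually_l1 R] with z hz
  have h2 := ENNReal.toReal_mono (GN_ne_top d N hN hd _) (hR z hz)
  rw [ENNReal.toReal_mul, ENNReal.toReal_ofReal (by linarith)] at h2
  exact h2

lemma tendsto_add_cofinite {d : ℕ} (v : Fin d → ℤ) :
    Tendsto (fun z : Fin d → ℤ => z + v) cofinite cofinite :=
  (add_left_injective v).tendsto_cofinite

lemma ratio_step (d N : ℕ) (hN : 1 ≤ N) (hd : 2 * N < d) (e : Fin d × Bool) :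
    Tendsto (fun z : Fin d → ℤ => gg d N (z + st e) / gg d N z) cofinite (𝓝 1) := by
  rw [Metric.tendsto_nhds]
  intro δ hδ
  set ε : ℝ := min (δ / 4) (1 / 2) with hε
  have h0 : 0 < ε := lt_min (by positivity) (by norm_num)
  have h1 : ε ≤ 1 / 2 := min_le_right _ _
  have h2 : ε ≤ δ / 4 := min_le_left _ _
  have hop : st (d := d) (e.1, !e.2) = -st e := by
    unfold st
    cases e.2 <;> simp
  have hA := gg_step d N hN hd ε h0 (by linarith) e
  have hB := (tendsto_add_cofinite (st e)).eventually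
    (gg_step d N hN hd ε h0 (by linarith) (e.1, !e.2))
  filter_upwards [hA, hB] with z hA hB
  rw [hop, add_neg_cancel_right] at hB
  have hg := gg_pos d N hN hd z
  have hg' := gg_pos d N hN hd (z + st e)
  rw [Real.dist_eq, abs_lt]
  constructor
  · have : 1 - ε ≤ gg d N (z + st e) / gg d N z := by
      rw [le_div_iff₀ hg]; exact hA
    linarith
  · have : gg d N (z + st e) / gg d N z ≤ 1 + 2 * ε := by
      rw [div_le_iff₀ hg]
      nlinarith
    linarith

lemma ratio_tendsto (d N : ℕ) (hN : 1 ≤ N) (hd : 2 * N < d) (v : Fin d → ℤ) :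
    Tendsto (fun z : Fin d → ℤ => gg d N (z + v) / gg d N z) cofinite (𝓝 1) := by
  have hadd : ∀ v w : Fin d → ℤ,
      Tendsto (fun z : Fin d → ℤ => gg d N (z + v) / gg d N z) cofinite (𝓝 1) →
      Tendsto (fun z : Fin d → ℤ => gg d N (z + w) / gg d N z) cofinite (𝓝 1) →
      Tendsto (fun z : Fin d → ℤ => gg d N (z + (v + w)) / gg d N z) cofinite (𝓝 1) := by
    intro v w hv hw
    have h1 := (hw.comp (tendsto_add_cofinite v)).mul hv
    rw [mul_one] at h1
    apply h1.congr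
    intro z
    simp only [Function.comp_apply]
    have hg := gg_pos d N hN hd z
    have hg' := gg_pos d N hN hd (z + v)
    rw [← add_assoc]
    field_simp
  have hzero : Tendsto (fun z : Fin d → ℤ => gg d N (z + 0) / gg d N z) cofinite (𝓝 1) := by
    apply (tendsto_const_nhds (x := (1 : ℝ))).congr
    intro z
    rw [add_zero, div_self (gg_pos d N hN hd z).ne']
  have hmul : ∀ (e : Fin d × Bool) (n : ℕ),
      Tendsto (fun z : Fin d → ℤ => gg d N (z + n • st e) / gg d N z) cofinite (𝓝 1) := by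
    intro e n
    induction n with
    | zero => simpa using hzero
    | succ n ih =>
      rw [succ_nsmul]
      exact hadd _ _ ih (ratio_step d N hN hd e)
  have hsum : ∀ (s : Finset (Fin d)), Tendsto (fun z : Fin d → ℤ =>
      gg d N (z + ∑ k ∈ s, Pi.single k (v k)) / gg d N z) cofinite (𝓝 1) := by
    intro s
    classical
    induction s using Finset.induction_on with
    | empty => simpa using hzero
    | insert a s ha ih =>
      rw [Finset.sum_insert ha]
      apply hadd _ _ _ ih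
      rcases le_total 0 (v a) with h | h
      · have := hmul (a, true) (v a).toNat
        have e1 : (v a).toNat • st (d := d) (a, true) = Pi.single a (v a) := by
          ext j
          by_cases hj : j = a
          · subst hj
            simp [st, Int.toNat_of_nonneg h]
          · simp [st, Pi.single_eq_of_ne hj]
        rwa [e1] at this
      · have := hmul (a, false) (-(v a)).toNat
        have e1 : (-(v a)).toNat • st (d := d) (a, false) = Pi.single a (v a) := by
          ext j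
          by_cases hj : j = a
          · subst hj
            simp [st, Int.toNat_of_nonneg (neg_nonneg.mpr h)]
          · simp [st, Pi.single_eq_of_ne hj]
        rwa [e1] at this
  have := hsum Finset.univ
  rwa [Finset.univ_sum_single] at this

lemma gg_neg (d N : ℕ) (hd : 0 < d) (x : Fin d → ℤ) : gg d N (-x) = gg d N x := by
  unfold gg
  rw [GN_neg d N hd]

lemma ratio_sub (d N : ℕ) (hN : 1 ≤ N) (hd : 2 * N < d) (y : Fin d → ℤ) :
    Tendsto (fun z : Fin d → ℤ => gg d N (y - z) / gg d N z) cofinite (𝓝 1) := by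
  apply (ratio_tendsto d N hN hd (-y)).congr
  intro z
  rw [show y - z = -(z + -y) by abel, gg_neg d N (by omega)]

end Pool.Agent.R165.SRW
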