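import Pool.Agent.R165.SRW.E

open scoped BigOperators ENNReal Topology
open Filter MeasureTheory ProbabilityTheory

namespace Pool.Agent.R165.SRW

/-- the increments of `N` independent simple random walks on `ℤ^d` -/
structure IsSRWFamily {Ω : Type*} [MeasurableSpace Ω] (P : Measure Ω) {d N : ℕ}
    (ξ : Fin N → ℕ → Ω → (Fin d → ℤ)) : Prop where
  meas : ∀ i j, Measurable (ξ i j)
  indep : iIndepFun (fun p : Fin N × ℕ => ξ p.1 p.2) P
  law : ∀ i j (x : Fin d → ℤ), P {ω | ξ i j ω = x} =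
    if ∑ k, |x k| = 1 then (2 * (d : ℝ≥0∞))⁻¹ else 0

lemma l1_eq {d : ℕ} (x : Fin d → ℤ) : (l1 x : ℤ) = ∑ k, |x k| := by
  unfold l1
  push_cast
  rfl

lemma st_injective {d : ℕ} : Function.Injective (st (d := d)) := by
  rintro ⟨k, b⟩ ⟨k', b'⟩ h
  have h1 := congrFun h k
  have h2 := congrFun h k'
  unfold st at h1 h2
  by_cases hk : k = k'
  · subst hk
    cases b <;> cases b' <;> simp at h1 ⊢
  · exfalso
    cases b <;> cases b' <;> simp [Pi.single_eq_of_ne hk] at h1

lemma step_law {d : ℕ} (hd : 0 < d) (y : Fin d → ℤ) :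
    srw d 1 y = if ∑ k, |y k| = 1 then (2 * (d : ℝ≥0∞))⁻¹ else 0 := by
  classical
  have h1 : srw d 1 y = (∑ c : Fin d × Bool, if y = st c then (1 : ℝ≥0∞) else 0) /
      (2 * (d : ℝ≥0∞)) := by
    simp only [srw]
    congr 1
    rw [Fintype.sum_prod_type]
    apply Finset.sum_congr rfl
    intro k _
    rw [Fintype.sum_bool]
    simp only [st, if_true, Bool.false_eq_true, if_false, sub_eq_zero]
    congr 2
    rw [add_eq_zero_iff_eq_neg]
  rw [h1]
  have hl : (∑ k, |y k| = 1) ↔ l1 y = 1 := by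
    rw [← l1_eq]; norm_cast
  by_cases h : l1 y = 1
  · rw [if_pos (hl.mpr h)]
    obtain ⟨e, he⟩ := exists_step y 0 h
    have hy : y = st e := by
      have : y - st e = 0 := by
        funext k
        unfold l1 at he
        rw [Finset.sum_eq_zero_iff] at he
        have := he k (Finset.mem_univ k)
        simpa using this
      exact sub_eq_zero.mp this
    rw [Finset.sum_eq_single e]
    · rw [if_pos hy, one_div]
    · intro c _ hc
      rw [if_neg]
      intro hyc
      exact hc (st_injective (hyc.symm.trans hy))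
    · simp
  · rw [if_neg (fun h' => h (hl.mp h'))]
    rw [Finset.sum_eq_zero, ENNReal.zero_div]
    intro c _
    rw [if_neg]
    rintro rfl
    exact h (l1_st c)

variable {Ω : Type*} [MeasurableSpace Ω] {P : Measure Ω} [IsProbabilityMeasure P] {d N : ℕ}
  {ξ : Fin N → ℕ → Ω → (Fin d → ℤ)}

omit [IsProbabilityMeasure P] in
lemma add_law {X Y : Ω → (Fin d → ℤ)} (hX : Measurable X) (hY : Measurable Y)
    (h : IndepFun X Y P) (x : Fin d → ℤ) :
    P {ω | X ω + Y ω = x} = ∑' y, P {ω | X ω = y} * P {ω | Y ω = x - y} := by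
  have h1 : {ω | X ω + Y ω = x} = ⋃ y, ({ω | X ω = y} ∩ {ω | Y ω = x - y}) := by
    ext ω
    simp only [Set.mem_ofPred_eq, Set.mem_iUnion, Set.mem_inter_iff]
    constructor
    · intro hω
      exact ⟨X ω, rfl, by rw [← hω]; abel⟩
    · rintro ⟨y, rfl, h2⟩
      rw [h2]; abel
  rw [h1, measure_iUnion]
  · apply tsum_congr
    intro y
    exact h.measure_inter_preimage_eq_mul {y} {x - y} (measurableSet_singleton _)
      (measurableSet_singleton _)
  · intro a b hab
    apply Set.disjoint_left.mpr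
    rintro ω ⟨h2, -⟩ ⟨h3, -⟩
    exact hab (h2.symm.trans h3)
  · intro y
    exact (hX (measurableSet_singleton y)).inter (hY (measurableSet_singleton _))

lemma sum_law (hd : 0 < d) (H : IsSRWFamily P ξ) (F : Finset (Fin N × ℕ)) (x : Fin d → ℤ) :
    P {ω | ∑ p ∈ F, ξ p.1 p.2 ω = x} = srw d F.card x := by
  classical
  induction F using Finset.induction_on generalizing x with
  | empty =>
    simp only [Finset.sum_empty, Finset.card_empty, srw]
    by_cases hx : x = 0
    · subst hx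
      simp
    · rw [if_neg hx]
      have : {ω : Ω | (0 : Fin d → ℤ) = x} = ∅ := by
        ext ω
        simp only [Set.mem_ofPred_eq, Set.mem_empty_iff_false, iff_false]
        exact fun h => hx h.symm
      rw [this, measure_empty]
  | insert a F ha ih =>
    rw [Finset.card_insert_of_notMem ha, add_comm F.card 1, srw_add d hd]
    simp only [Finset.sum_insert ha]
    have hind : IndepFun (ξ a.1 a.2) (fun ω => ∑ p ∈ F, ξ p.1 p.2 ω) P := by
      have := (H.indep.indepFun_finsetSum_of_notMem (fun p => H.meas p.1 p.2) ha).symm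
      convert this using 1
      funext ω
      rw [Finset.sum_apply]
    rw [add_law (H.meas a.1 a.2) (Finset.measurable_fun_sum _ fun p _ => H.meas p.1 p.2) hind]
    apply tsum_congr
    intro y
    rw [ih, H.law, step_law hd]

/-- joint bound -/
lemma pair_bound (hd : 0 < d) (H : IsSRWFamily P ξ) (F F' : Finset (Fin N × ℕ))
    (x x' : Fin d → ℤ) (K : ℝ≥0∞) (hK : ∀ y, srw d (F \ F').card y ≤ K) :
    P ({ω | ∑ p ∈ F, ξ p.1 p.2 ω = x} ∩ {ω | ∑ p ∈ F', ξ p.1 p.2 ω = x'}) ≤
      K * srw d F'.card x' := by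
  classical
  set U : Ω → (Fin d → ℤ) := fun ω => ∑ p ∈ F \ F', ξ p.1 p.2 ω with hU
  set V : Ω → (Fin d → ℤ) := fun ω => ∑ p ∈ F ∩ F', ξ p.1 p.2 ω with hV
  set W : Ω → (Fin d → ℤ) := fun ω => ∑ p ∈ F', ξ p.1 p.2 ω with hW
  have mU : Measurable U := Finset.measurable_fun_sum _ fun p _ => H.meas p.1 p.2
  have mV : Measurable V := Finset.measurable_fun_sum _ fun p _ => H.meas p.1 p.2
  have mW : Measurable W := Finset.measurable_fun_sum _ fun p _ => H.meas p.1 p.2
  have hind : IndepFun (fun ω => (V ω, W ω)) U P := by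
    have h1 := H.indep.indepFun_finset F' (F \ F')
      (Finset.disjoint_sdiff) (fun p => H.meas p.1 p.2)
    have h2 := h1.comp
      (φ := fun w : (∀ p : F', (Fin d → ℤ)) => ((∑ p : F', if (p : Fin N × ℕ) ∈ F then w p else 0),
        ∑ p : F', w p))
      (ψ := fun w : (∀ p : (F \ F' : Finset (Fin N × ℕ)), (Fin d → ℤ)) => ∑ p, w p)
      (Measurable.of_discrete) (Measurable.of_discrete)
    convert h2 using 1
    · funext ω
      simp only [Function.comp_apply, hV, hW]
      congr 1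
      · rw [Finset.sum_coe_sort F' (fun p => if p ∈ F then ξ p.1 p.2 ω else 0),
          ← Finset.sum_filter, Finset.filter_mem_eq_inter, Finset.inter_comm]
      · rw [Finset.sum_coe_sort F' (fun p => ξ p.1 p.2 ω)]
    · funext ω
      simp only [Function.comp_apply, hU]
      rw [Finset.sum_coe_sort (F \ F') (fun p => ξ p.1 p.2 ω)]
  have hsplit : ∀ ω, ∑ p ∈ F, ξ p.1 p.2 ω = V ω + U ω := by
    intro ω
    rw [hV, hU]
    simp only
    rw [← Finset.sum_union (Finset.disjoint_sdiff_inter F F').symm, Finset.union_comm,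
      Finset.sdiff_union_inter]
  have h3 : ({ω | ∑ p ∈ F, ξ p.1 p.2 ω = x} ∩ {ω | ∑ p ∈ F', ξ p.1 p.2 ω = x'}) =
      ⋃ v, ({ω | (V ω, W ω) = (v, x')} ∩ {ω | U ω = x - v}) := by
    ext ω
    simp only [Set.mem_inter_iff, Set.mem_ofPred_eq, Set.mem_iUnion, Prod.mk.injEq, hsplit]
    constructor
    · rintro ⟨h4, h5⟩
      exact ⟨V ω, ⟨rfl, h5⟩, by rw [← h4]; abel⟩
    · rintro ⟨v, ⟨rfl, h5⟩, h6⟩
      exact ⟨by rw [h6]; abel, h5⟩
  have h4 : {ω | W ω = x'} = ⋃ v, {ω | (V ω, W ω) = (v, x')} := by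
    ext ω
    simp only [Set.mem_ofPred_eq, Set.mem_iUnion, Prod.mk.injEq]
    constructor
    · intro h; exact ⟨_, rfl, h⟩
    · rintro ⟨v, -, h⟩; exact h
  have mVW : ∀ v, MeasurableSet {ω | (V ω, W ω) = (v, x')} := fun v =>
    (mV.prodMk mW) (measurableSet_singleton (v, x'))
  calc P ({ω | ∑ p ∈ F, ξ p.1 p.2 ω = x} ∩ {ω | ∑ p ∈ F', ξ p.1 p.2 ω = x'})
      = P (⋃ v, ({ω | (V ω, W ω) = (v, x')} ∩ {ω | U ω = x - v})) := by rw [h3]
    _ ≤ ∑' v, P ({ω | (V ω, W ω) = (v, x')} ∩ {ω | U ω = x - v}) := measure_iUnion_le _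
    _ = ∑' v, P {ω | (V ω, W ω) = (v, x')} * P {ω | U ω = x - v} := by
        apply tsum_congr
        intro v
        exact hind.measure_inter_preimage_eq_mul {(v, x')} {x - v} (measurableSet_singleton _)
          (measurableSet_singleton _)
    _ ≤ ∑' v, P {ω | (V ω, W ω) = (v, x')} * K := by
        apply ENNReal.tsum_le_tsum
        intro v
        gcongr
        rw [hU, sum_law hd H]
        exact hK _
    _ = P {ω | W ω = x'} * K := by
        rw [ENNReal.tsum_mul_right, h4, measure_iUnion _ mVW]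
        intro a b hab
        apply Set.disjoint_left.mpr
        intro ω h5 h6
        simp only [Set.mem_ofPred_eq, Prod.mk.injEq] at h5 h6
        exact hab (h5.1.symm.trans h6.1)
    _ = K * srw d F'.card x' := by rw [hW, sum_law hd H, mul_comm]

/-- the index set of the first `n i` increments of walk `i` -/
def FF (n : Fin N → ℕ) : Finset (Fin N × ℕ) :=
  (Finset.univ.sigma (fun i => Finset.range (n i))).map (Equiv.sigmaEquivProd (Fin N) ℕ).toEmbedding

lemma mem_FF (n : Fin N → ℕ) (p : Fin N × ℕ) : p ∈ FF n ↔ p.2 < n p.1 := by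
  unfold FF
  rw [Finset.mem_map]
  constructor
  · rintro ⟨⟨i, j⟩, h, rfl⟩
    rw [Finset.mem_sigma, Finset.mem_range] at h
    exact h.2
  · intro h
    refine ⟨⟨p.1, p.2⟩, ?_, rfl⟩
    rw [Finset.mem_sigma, Finset.mem_range]
    exact ⟨Finset.mem_univ _, h⟩

lemma card_FF (n : Fin N → ℕ) : (FF n).card = ∑ i, n i := by
  unfold FF
  rw [Finset.card_map, Finset.card_sigma]
  simp

lemma sum_FF {β : Type*} [AddCommMonoid β] (n : Fin N → ℕ) (f : Fin N → ℕ → β) :
    ∑ p ∈ FF n, f p.1 p.2 = ∑ i, ∑ j ∈ Finset.range (n i), f i j := by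
  unfold FF
  rw [Finset.sum_map, Finset.sum_sigma]
  rfl

/-- position at multi-time `m` -/
def ps (ζ : Fin N → ℕ → (Fin d → ℤ)) (m : Fin N → ℕ) : Fin d → ℤ :=
  ∑ i, ∑ j ∈ Finset.range (m i), ζ i j

/-- the realization -/
def re (ξ : Fin N → ℕ → Ω → (Fin d → ℤ)) (ω : Ω) : Fin N → ℕ → (Fin d → ℤ) := fun i j => ξ i j ω

omit [MeasurableSpace Ω] in
lemma ps_re (n : Fin N → ℕ) (ω : Ω) : ps (re ξ ω) n = ∑ p ∈ FF n, ξ p.1 p.2 ω := by
  rw [sum_FF n (fun i j => ξ i j ω)]
  rfl

lemma ps_law (hd : 0 < d) (H : IsSRWFamily P ξ) (n : Fin N → ℕ) (x : Fin d → ℤ) :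
    P {ω | ps (re ξ ω) n = x} = srw d (∑ i, n i) x := by
  simp only [ps_re]
  rw [sum_law hd H, card_FF]

lemma FF_sdiff (n m : Fin N → ℕ) :
    l1 (fun i => (n i : ℤ) - m i) = (FF n \ FF m).card + (FF m \ FF n).card := by
  classical
  have h1 : FF n ∩ FF m = FF (fun i => min (n i) (m i)) := by
    ext p
    rw [Finset.mem_inter, mem_FF, mem_FF, mem_FF, lt_min_iff]
  have h2 : (FF n \ FF m).card + (FF n ∩ FF m).card = (FF n).card :=
    Finset.card_sdiff_add_card_inter _ _
  have h3 : (FF m \ FF n).card + (FF m ∩ FF n).card = (FF m).card :=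
    Finset.card_sdiff_add_card_inter _ _
  rw [Finset.inter_comm (FF m) (FF n)] at h3
  rw [h1, card_FF, card_FF] at h2 h3
  have h4 : l1 (fun i => (n i : ℤ) - m i) + (∑ i, min (n i) (m i) + ∑ i, min (n i) (m i)) =
      ∑ i, n i + ∑ i, m i := by
    unfold l1
    rw [← Finset.sum_add_distrib, ← Finset.sum_add_distrib, ← Finset.sum_add_distrib]
    apply Finset.sum_congr rfl
    intro i _
    show ((n i : ℤ) - m i).natAbs + (min (n i) (m i) + min (n i) (m i)) = n i + m i
    omega
  omega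

/-- two-point bound -/
lemma two_point (H : IsSRWFamily P ξ) (hN : 2 * N < d) (n m : Fin N → ℕ) (x x' : Fin d → ℤ) :
    P ({ω | ps (re ξ ω) n = x} ∩ {ω | ps (re ξ ω) m = x'}) ≤
      hh d N (l1 (fun i => (n i : ℤ) - m i)) *
        (srw d (∑ i, m i) x' + srw d (∑ i, n i) x) := by
  classical
  have hd : 0 < d := by omega
  have h1 := FF_sdiff n m
  simp only [ps_re]
  rcases le_total (FF m \ FF n).card (FF n \ FF m).card with h | h
  · have h2 := pair_bound hd H (FF n) (FF m) x x' (hh d N (l1 (fun i => (n i : ℤ) - m i)))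
      (fun y => srw_le_hh d N hN _ _ (by omega) y)
    rw [card_FF] at h2
    refine le_trans h2 ?_
    gcongr
    exact le_self_add
  · have h2 := pair_bound hd H (FF m) (FF n) x' x (hh d N (l1 (fun i => (n i : ℤ) - m i)))
      (fun y => srw_le_hh d N hN _ _ (by omega) y)
    rw [card_FF, Set.inter_comm] at h2
    refine le_trans h2 ?_
    gcongr
    exact le_add_self

end Pool.Agent.R165.SRW
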