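import Pool.Agent.R165.SRW.F

open scoped BigOperators ENNReal Topology Classical
open Filter MeasureTheory ProbabilityTheory

namespace Pool.Agent.R165.SRW

/-- sup-norm box of radius `M` around the multi-time `n` -/
def bx {N : ℕ} (M : ℕ) (n : Fin N → ℕ) : Finset (Fin N → ℕ) :=
  Fintype.piFinset (fun i => Finset.Icc (n i - M) (n i + M))

lemma mem_bx {N : ℕ} (M : ℕ) (n m : Fin N → ℕ) :
    m ∈ bx M n ↔ ∀ i, n i - M ≤ m i ∧ m i ≤ n i + M := by
  unfold bx
  rw [Fintype.mem_piFinset]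
  simp only [Finset.mem_Icc]

lemma self_mem_bx {N : ℕ} (M : ℕ) (n : Fin N → ℕ) : n ∈ bx M n := by
  rw [mem_bx]; intro i; omega

noncomputable def Hs {N : ℕ} (M : ℕ) (t : (Fin N → ℕ) → Prop) (n : Fin N → ℕ) : ℝ≥0∞ :=
  ∑ m ∈ bx M n, if t m then 1 else 0

lemma one_le_Hs {N : ℕ} (M : ℕ) (t : (Fin N → ℕ) → Prop) (n : Fin N → ℕ) (h : t n) :
    1 ≤ Hs M t n := by
  unfold Hs
  refine le_trans ?_ (Finset.single_le_sum (f := fun m => if t m then (1 : ℝ≥0∞) else 0)
    (fun _ _ => zero_le) (self_mem_bx M n))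
  simp [h]

lemma Hs_inv_le {N : ℕ} (M : ℕ) (t : (Fin N → ℕ) → Prop) (n : Fin N → ℕ) (h : t n) :
    (Hs M t n)⁻¹ ≤ 1 := by
  rw [ENNReal.inv_le_one]
  exact one_le_Hs M t n h

lemma card_bx_le {N : ℕ} (M : ℕ) (n : Fin N → ℕ) : (bx M n).card ≤ (2 * M + 1) ^ N := by
  unfold bx
  rw [Fintype.card_piFinset]
  calc ∏ i, (Finset.Icc (n i - M) (n i + M)).card ≤ ∏ _i : Fin N, (2 * M + 1) := by
        apply Finset.prod_le_prod'
        intro i _
        rw [Nat.card_Icc]
        omega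
    _ = _ := by simp

lemma Hs_eq {N : ℕ} (M : ℕ) (t : (Fin N → ℕ) → Prop) (n : Fin N → ℕ) :
    Hs M t n = (((bx M n).filter t).card : ℝ≥0∞) := by
  unfold Hs
  rw [Finset.sum_boole]

lemma point_lower {N : ℕ} (M : ℕ) (t : (Fin N → ℕ) → Prop) :
    (if ∃ n, t n then (1 : ℝ≥0∞) else 0) ≤ ∑' n, (if t n then (Hs M t n)⁻¹ else 0) := by
  by_cases hex : ∃ n, t n
  swap
  · rw [if_neg hex]; exact zero_le
  rw [if_pos hex]
  by_cases hfin : {n | t n}.Finite
  · set T := hfin.toFinset with hT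
    have hmem : ∀ n, n ∈ T ↔ t n := by intro n; rw [hT, Set.Finite.mem_toFinset]; rfl
    have hTne : T.Nonempty := by
      obtain ⟨n, hn⟩ := hex
      exact ⟨n, (hmem n).mpr hn⟩
    refine le_trans ?_ (ENNReal.sum_le_tsum T)
    calc (1 : ℝ≥0∞) = ∑ n ∈ T, ((T.card : ℕ) : ℝ≥0∞)⁻¹ := by
          rw [Finset.sum_const, nsmul_eq_mul, ENNReal.mul_inv_cancel]
          · simp [hTne.ne_empty]
          · exact ENNReal.natCast_ne_top _
      _ ≤ ∑ n ∈ T, (if t n then (Hs M t n)⁻¹ else 0) := by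
          apply Finset.sum_le_sum
          intro n hn
          rw [if_pos ((hmem n).mp hn), ENNReal.inv_le_inv, Hs_eq]
          have : (bx M n).filter t ⊆ T := by
            intro m hm
            rw [Finset.mem_filter] at hm
            exact (hmem m).mpr hm.2
          exact_mod_cast Finset.card_le_card this
  · obtain ⟨s, hs, hcard⟩ := Set.Infinite.exists_subset_card_eq hfin ((2 * M + 1) ^ N)
    refine le_trans ?_ (ENNReal.sum_le_tsum s)
    calc (1 : ℝ≥0∞) = ∑ n ∈ s, ((((2 * M + 1) ^ N : ℕ)) : ℝ≥0∞)⁻¹ := by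
          rw [Finset.sum_const, nsmul_eq_mul, hcard, ENNReal.mul_inv_cancel]
          · have : (2 * M + 1) ^ N ≠ 0 := by positivity
            exact_mod_cast this
          · exact ENNReal.natCast_ne_top _
      _ ≤ ∑ n ∈ s, (if t n then (Hs M t n)⁻¹ else 0) := by
          apply Finset.sum_le_sum
          intro n hn
          have htn : t n := hs (Finset.mem_coe.mpr hn)
          rw [if_pos htn, ENNReal.inv_le_inv, Hs_eq]
          have h1 : ((bx M n).filter t).card ≤ (2 * M + 1) ^ N :=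
            le_trans (Finset.card_filter_le _ _) (card_bx_le M n)
          exact_mod_cast h1

lemma point_upper {N : ℕ} (M : ℕ) (t : (Fin N → ℕ) → Prop) :
    ∑' n, (if t n then (Hs M t n)⁻¹ else 0) ≤ (if ∃ n, t n then (1 : ℝ≥0∞) else 0) +
      ∑' n, ∑' m, (if (t n ∧ t m ∧ m ∉ bx M n) then (1 : ℝ≥0∞) else 0) := by
  have hfar : ∀ n, t n → (∃ m, t m ∧ m ∉ bx M n) →
      (Hs M t n)⁻¹ ≤ ∑' m, (if (t n ∧ t m ∧ m ∉ bx M n) then (1 : ℝ≥0∞) else 0) := by
    rintro n hn ⟨m, hm, hmb⟩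
    refine le_trans (Hs_inv_le M t n hn) ?_
    refine le_trans ?_ (ENNReal.le_tsum m)
    rw [if_pos ⟨hn, hm, hmb⟩]
  by_cases hfin : {n | t n}.Finite
  · set T := hfin.toFinset with hT
    have hmem : ∀ n, n ∈ T ↔ t n := by intro n; rw [hT, Set.Finite.mem_toFinset]; rfl
    have h1 : ∀ n, (if t n then (Hs M t n)⁻¹ else 0) ≤
        (if n ∈ T then ((T.card : ℕ) : ℝ≥0∞)⁻¹ else 0) +
          ∑' m, (if (t n ∧ t m ∧ m ∉ bx M n) then (1 : ℝ≥0∞) else 0) := by
      intro n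
      by_cases hn : t n
      · rw [if_pos hn, if_pos ((hmem n).mpr hn)]
        by_cases hf : ∃ m, t m ∧ m ∉ bx M n
        · exact le_trans (hfar n hn hf) le_add_self
        · push Not at hf
          refine le_trans (le_of_eq ?_) le_self_add
          rw [Hs_eq]
          congr 3
          ext m
          rw [Finset.mem_filter, hmem]
          exact ⟨fun h => h.2, fun h => ⟨hf m h, h⟩⟩
      · rw [if_neg hn]; exact zero_le
    refine le_trans (ENNReal.tsum_le_tsum h1) ?_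
    rw [ENNReal.tsum_add]
    gcongr
    rw [tsum_eq_sum (s := T) (fun n hn => by rw [if_neg hn])]
    rw [Finset.sum_congr rfl (fun n hn => if_pos hn), Finset.sum_const, nsmul_eq_mul]
    by_cases hex : ∃ n, t n
    · rw [if_pos hex]
      exact ENNReal.mul_inv_le_one _
    · rw [if_neg hex]
      have : T = ∅ := by
        rw [Finset.eq_empty_iff_forall_notMem]
        intro n hn
        exact hex ⟨n, (hmem n).mp hn⟩
      rw [this]
      simp
  · refine le_trans ?_ le_add_self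
    apply ENNReal.tsum_le_tsum
    intro n
    by_cases hn : t n
    · rw [if_pos hn]
      apply hfar n hn
      by_contra hcon
      push Not at hcon
      exact hfin ((bx M n).finite_toSet.subset (fun m hm => hcon m hm))
    · rw [if_neg hn]; exact zero_le

variable {Ω : Type*} [MeasurableSpace Ω] {P : Measure Ω} [IsProbabilityMeasure P] {d N : ℕ}
  {ξ : Fin N → ℕ → Ω → (Fin d → ℤ)}

/-- hitting at multi-time `n` -/
def hit (ξ : Fin N → ℕ → Ω → (Fin d → ℤ)) (A : Finset (Fin d → ℤ)) (z : Fin d → ℤ)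
    (n : Fin N → ℕ) (ω : Ω) : Prop := z + ps (re ξ ω) n ∈ A

omit [IsProbabilityMeasure P] in
lemma meas_ps (H : IsSRWFamily P ξ) (n : Fin N → ℕ) : Measurable (fun ω => ps (re ξ ω) n) := by
  unfold ps re
  exact Finset.measurable_fun_sum _ fun i _ => Finset.measurable_fun_sum _ fun j _ => H.meas i j

omit [IsProbabilityMeasure P] in
lemma meas_hit (H : IsSRWFamily P ξ) (A : Finset (Fin d → ℤ)) (z : Fin d → ℤ) (n : Fin N → ℕ) :
    MeasurableSet {ω | hit ξ A z n ω} := by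
  have h1 : Measurable (fun ω => z + ps (re ξ ω) n) := (meas_ps H n).const_add z
  exact h1 (MeasurableSet.of_discrete (s := (A : Set (Fin d → ℤ))))

noncomputable def qf (ξ : Fin N → ℕ → Ω → (Fin d → ℤ)) (A : Finset (Fin d → ℤ)) (M : ℕ)
    (z : Fin d → ℤ) (n : Fin N → ℕ) (ω : Ω) : ℝ≥0∞ :=
  if hit ξ A z n ω then (Hs M (fun m => hit ξ A z m ω) n)⁻¹ else 0

omit [IsProbabilityMeasure P] in
lemma meas_qf (H : IsSRWFamily P ξ) (A : Finset (Fin d → ℤ)) (M : ℕ) (z : Fin d → ℤ)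
    (n : Fin N → ℕ) : Measurable (qf ξ A M z n) := by
  unfold qf Hs
  apply Measurable.ite (meas_hit H A z n) _ measurable_const
  apply Measurable.inv
  apply Finset.measurable_fun_sum
  intro m _
  exact Measurable.ite (meas_hit H A z m) measurable_const measurable_const

noncomputable def Qn (P : Measure Ω) (ξ : Fin N → ℕ → Ω → (Fin d → ℤ)) (A : Finset (Fin d → ℤ))
    (M : ℕ) (z : Fin d → ℤ) (n : Fin N → ℕ) : ℝ≥0∞ := ∫⁻ ω, qf ξ A M z n ω ∂P

noncomputable def pA (P : Measure Ω) (ξ : Fin N → ℕ → Ω → (Fin d → ℤ)) (A : Finset (Fin d → ℤ))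
    (z : Fin d → ℤ) : ℝ≥0∞ := P {ω | ∃ n, hit ξ A z n ω}

omit [IsProbabilityMeasure P] in
lemma pA_eq (H : IsSRWFamily P ξ) (A : Finset (Fin d → ℤ)) (z : Fin d → ℤ) :
    pA P ξ A z = ∫⁻ ω, (if ∃ n, hit ξ A z n ω then (1 : ℝ≥0∞) else 0) ∂P := by
  have hm : MeasurableSet {ω | ∃ n, hit ξ A z n ω} := by
    have : {ω | ∃ n, hit ξ A z n ω} = ⋃ n, {ω | hit ξ A z n ω} := by
      ext ω; simp
    rw [this]
    exact MeasurableSet.iUnion fun n => meas_hit H A z n
  unfold pA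
  rw [← lintegral_indicator_one hm]
  apply lintegral_congr
  intro ω
  by_cases h : ∃ n, hit ξ A z n ω
  · rw [if_pos h, Set.indicator_of_mem (show ω ∈ {ω | ∃ n, hit ξ A z n ω} from h)]; rfl
  · rw [if_neg h, Set.indicator_of_notMem (show ω ∉ {ω | ∃ n, hit ξ A z n ω} from h)]

omit [IsProbabilityMeasure P] in
lemma sandwich_lower (H : IsSRWFamily P ξ) (A : Finset (Fin d → ℤ)) (M : ℕ) (z : Fin d → ℤ) :
    pA P ξ A z ≤ ∑' n, Qn P ξ A M z n := by
  rw [pA_eq H]
  unfold Qn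
  rw [← lintegral_tsum (fun n => (meas_qf H A M z n).aemeasurable)]
  apply lintegral_mono
  intro ω
  exact point_lower M (fun n => hit ξ A z n ω)

omit [IsProbabilityMeasure P] in
lemma sandwich_upper (H : IsSRWFamily P ξ) (A : Finset (Fin d → ℤ)) (M : ℕ) (z : Fin d → ℤ) :
    ∑' n, Qn P ξ A M z n ≤ pA P ξ A z + ∑' n, ∑' m, (if m ∉ bx M n then
      P ({ω | hit ξ A z n ω} ∩ {ω | hit ξ A z m ω}) else 0) := by
  rw [pA_eq H]
  unfold Qn
  rw [← lintegral_tsum (fun n => (meas_qf H A M z n).aemeasurable)]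
  have hmeas2 : ∀ n m : Fin N → ℕ, Measurable (fun ω =>
      if (hit ξ A z n ω ∧ hit ξ A z m ω ∧ m ∉ bx M n) then (1 : ℝ≥0∞) else 0) := by
    intro n m
    apply Measurable.ite _ measurable_const measurable_const
    by_cases h : m ∉ bx M n
    · have : {ω | hit ξ A z n ω ∧ hit ξ A z m ω ∧ m ∉ bx M n} =
          {ω | hit ξ A z n ω} ∩ {ω | hit ξ A z m ω} := by
        ext ω; simp [h]
      rw [this]
      exact (meas_hit H A z n).inter (meas_hit H A z m)
    · have : {ω | hit ξ A z n ω ∧ hit ξ A z m ω ∧ m ∉ bx M n} = ∅ := by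
        ext ω
        simp only [Set.mem_ofPred_eq, Set.mem_empty_iff_false, iff_false]
        tauto
      rw [this]
      exact MeasurableSet.empty
  have hint : ∀ n m : Fin N → ℕ, ∫⁻ ω, (if (hit ξ A z n ω ∧ hit ξ A z m ω ∧ m ∉ bx M n) then
      (1 : ℝ≥0∞) else 0) ∂P = (if m ∉ bx M n then
      P ({ω | hit ξ A z n ω} ∩ {ω | hit ξ A z m ω}) else 0) := by
    intro n m
    by_cases h : m ∉ bx M n
    · rw [if_pos h, ← lintegral_indicator_one ((meas_hit H A z n).inter (meas_hit H A z m))]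
      apply lintegral_congr
      intro ω
      by_cases h2 : ω ∈ {ω | hit ξ A z n ω} ∩ {ω | hit ξ A z m ω}
      · rw [Set.indicator_of_mem h2, if_pos ⟨h2.1, h2.2, h⟩]; rfl
      · rw [Set.indicator_of_notMem h2, if_neg]
        rintro ⟨a, b, -⟩
        exact h2 ⟨a, b⟩
    · rw [if_neg h]
      simp [h]
  simp only [← hint]
  have hm3 : ∀ n, AEMeasurable (fun ω => ∑' m, (if (hit ξ A z n ω ∧ hit ξ A z m ω ∧ m ∉ bx M n) then
      (1 : ℝ≥0∞) else 0)) P := fun n => (Measurable.tsum (hmeas2 n)).aemeasurable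
  have h4 : ∑' n, ∑' m, ∫⁻ ω, (if (hit ξ A z n ω ∧ hit ξ A z m ω ∧ m ∉ bx M n) then
      (1 : ℝ≥0∞) else 0) ∂P = ∫⁻ ω, ∑' n, ∑' m, (if (hit ξ A z n ω ∧ hit ξ A z m ω ∧ m ∉ bx M n) then
      (1 : ℝ≥0∞) else 0) ∂P := by
    rw [lintegral_tsum hm3]
    apply tsum_congr
    intro n
    rw [lintegral_tsum (fun m => (hmeas2 n m).aemeasurable)]
  rw [h4, ← lintegral_add_right _ (Measurable.tsum fun n => Measurable.tsum (hmeas2 n))]
  apply lintegral_mono
  intro ω
  exact point_upper M (fun n => hit ξ A z n ω)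

end Pool.Agent.R165.SRW
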