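import Pool.Agent.R165.SRW.G

open scoped BigOperators ENNReal Topology Classical
open Filter MeasureTheory ProbabilityTheory

namespace Pool.Agent.R165.SRW

variable {Ω : Type*} [MeasurableSpace Ω] {P : Measure Ω} [IsProbabilityMeasure P] {d N : ℕ}
  {ξ : Fin N → ℕ → Ω → (Fin d → ℤ)}

/-- shifted array -/
def sh (n : Fin N → ℕ) (ζ : Fin N → ℕ → (Fin d → ℤ)) : Fin N → ℕ → (Fin d → ℤ) :=
  fun i j => ζ i (n i + j)

lemma ps_add (ζ : Fin N → ℕ → (Fin d → ℤ)) (n m : Fin N → ℕ) :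
    ps ζ (n + m) = ps ζ n + ps (sh n ζ) m := by
  unfold ps sh
  rw [← Finset.sum_add_distrib]
  apply Finset.sum_congr rfl
  intro i _
  rw [Pi.add_apply, Finset.sum_range_add]

lemma ps_congr (ζ ζ' : Fin N → ℕ → (Fin d → ℤ)) (L : ℕ) (h : ∀ i j, j < L → ζ i j = ζ' i j)
    (m : Fin N → ℕ) (hm : ∀ i, m i ≤ L) : ps ζ m = ps ζ' m := by
  unfold ps
  apply Finset.sum_congr rfl
  intro i _
  apply Finset.sum_congr rfl
  intro j hj
  rw [Finset.mem_range] at hj
  exact h i j (lt_of_lt_of_le hj (hm i))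

/-- the window functional -/
noncomputable def Psi (A : Finset (Fin d → ℤ)) (M : ℕ) (y : Fin d → ℤ)
    (ζ : Fin N → ℕ → (Fin d → ℤ)) : ℝ≥0∞ :=
  if y + ps ζ (fun _ => M) ∈ A then (Hs M (fun m => y + ps ζ m ∈ A) (fun _ => M))⁻¹ else 0

lemma Psi_congr (A : Finset (Fin d → ℤ)) (M : ℕ) (y : Fin d → ℤ)
    (ζ ζ' : Fin N → ℕ → (Fin d → ℤ)) (h : ∀ i j, j < 2 * M → ζ i j = ζ' i j) :
    Psi A M y ζ = Psi A M y ζ' := by
  unfold Psi
  rw [ps_congr ζ ζ' (2 * M) h (fun _ => M) (fun _ => by omega)]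
  have : Hs M (fun m => y + ps ζ m ∈ A) (fun _ : Fin N => M) =
      Hs M (fun m => y + ps ζ' m ∈ A) (fun _ : Fin N => M) := by
    unfold Hs
    apply Finset.sum_congr rfl
    intro m hm
    rw [mem_bx] at hm
    beta_reduce
    rw [ps_congr ζ ζ' (2 * M) h m (fun i => by have := hm i; omega)]
  rw [this]

omit [MeasurableSpace Ω] in
lemma qf_shift (A : Finset (Fin d → ℤ)) (M : ℕ) (z : Fin d → ℤ) (n : Fin N → ℕ) (ω : Ω) :
    qf ξ A M z (n + fun _ => M) ω = Psi A M (z + ps (re ξ ω) n) (sh n (re ξ ω)) := by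
  unfold qf Psi hit
  have key : ∀ m, z + ps (re ξ ω) (n + m) = z + ps (re ξ ω) n + ps (sh n (re ξ ω)) m := by
    intro m
    rw [ps_add, add_assoc]
  rw [key]
  have : Hs M (fun m => z + ps (re ξ ω) m ∈ A) (n + fun _ => M) =
      Hs M (fun m => z + ps (re ξ ω) n + ps (sh n (re ξ ω)) m ∈ A) (fun _ : Fin N => M) := by
    unfold Hs
    symm
    apply Finset.sum_nbij' (i := fun m => n + m) (j := fun m => m - n)
    · intro m hm
      rw [mem_bx] at hm ⊢
      intro i
      have := hm i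
      simp only [Pi.add_apply]
      omega
    · intro m hm
      rw [mem_bx] at hm ⊢
      intro i
      have := hm i
      simp only [Pi.add_apply, Pi.sub_apply] at this ⊢
      omega
    · intro m _
      funext i
      simp
    · intro m hm
      rw [mem_bx] at hm
      funext i
      have := hm i
      simp only [Pi.add_apply, Pi.sub_apply] at this ⊢
      omega
    · intro m _
      beta_reduce
      rw [key]
  rw [this]
  split_ifs <;> rfl

/-- window of increments -/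
def Th (ξ : Fin N → ℕ → Ω → (Fin d → ℤ)) (L : ℕ) (n : Fin N → ℕ) (ω : Ω) :
    Fin N × Fin L → (Fin d → ℤ) := fun q => ξ q.1 (n q.1 + q.2) ω

def ex (L : ℕ) (θ : Fin N × Fin L → (Fin d → ℤ)) : Fin N → ℕ → (Fin d → ℤ) :=
  fun i j => if h : j < L then θ (i, ⟨j, h⟩) else 0

omit [MeasurableSpace Ω] in
lemma ex_Th (L : ℕ) (n : Fin N → ℕ) (ω : Ω) (i : Fin N) (j : ℕ) (hj : j < L) :
    sh n (re ξ ω) i j = ex L (Th ξ L n ω) i j := by
  unfold sh re ex Th
  rw [dif_pos hj]

omit [IsProbabilityMeasure P] in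
lemma meas_Th (H : IsSRWFamily P ξ) (L : ℕ) (n : Fin N → ℕ) : Measurable (Th ξ L n) := by
  unfold Th
  exact measurable_pi_lambda _ fun q => H.meas _ _

lemma map_Th (H : IsSRWFamily P ξ) (L : ℕ) (n : Fin N → ℕ) :
    P.map (Th ξ L n) = P.map (Th ξ L 0) := by
  have hlaw : ∀ i j i' j', P.map (ξ i j) = P.map (ξ i' j') := by
    intro i j i' j'
    apply Measure.ext_of_singleton
    intro x
    rw [Measure.map_apply (H.meas i j) (measurableSet_singleton x),
      Measure.map_apply (H.meas i' j') (measurableSet_singleton x)]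
    exact (H.law i j x).trans (H.law i' j' x).symm
  have hpi : ∀ n : Fin N → ℕ, P.map (Th ξ L n) =
      Measure.pi (fun q : Fin N × Fin L => P.map (ξ q.1 (n q.1 + q.2))) := by
    intro n
    have hinj : Function.Injective (fun q : Fin N × Fin L => (q.1, n q.1 + (q.2 : ℕ))) := by
      rintro ⟨i, j⟩ ⟨i', j'⟩ h
      simp only [Prod.mk.injEq] at h
      obtain ⟨h1, h2⟩ := h
      subst h1
      have : (j : ℕ) = j' := by omega
      rw [Fin.ext this]
    have h1 := H.indep.precomp hinj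
    exact (iIndepFun_iff_map_fun_eq_pi_map (fun q => (H.meas _ _).aemeasurable)).mp h1
  rw [hpi, hpi]
  congr 1
  funext q
  exact hlaw _ _ _ _

omit [IsProbabilityMeasure P] in
lemma indep_past (H : IsSRWFamily P ξ) (L : ℕ) (n : Fin N → ℕ) :
    IndepFun (fun ω => ps (re ξ ω) n) (Th ξ L n) P := by
  set T : Finset (Fin N × ℕ) := Finset.univ.image
    (fun q : Fin N × Fin L => (q.1, n q.1 + (q.2 : ℕ))) with hT
  have hdis : Disjoint (FF n) T := by
    rw [Finset.disjoint_left]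
    intro p hp hp'
    rw [mem_FF] at hp
    rw [hT, Finset.mem_image] at hp'
    obtain ⟨q, -, rfl⟩ := hp'
    simp only at hp
    omega
  have h1 := H.indep.indepFun_finset (FF n) T hdis (fun p => H.meas p.1 p.2)
  have h2 := h1.comp
    (φ := fun w : (∀ p : FF n, (Fin d → ℤ)) => ∑ p, w p)
    (ψ := fun w : (∀ p : T, (Fin d → ℤ)) => fun q : Fin N × Fin L =>
      w ⟨(q.1, n q.1 + (q.2 : ℕ)), Finset.mem_image_of_mem _ (Finset.mem_univ q)⟩)
    (Measurable.of_discrete) (Measurable.of_discrete)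
  convert h2 using 1
  · funext ω
    simp only [Function.comp_apply]
    rw [ps_re, Finset.sum_coe_sort (FF n) (fun p => ξ p.1 p.2 ω)]
  · rfl

lemma Qn_shift (hd : 0 < d) (H : IsSRWFamily P ξ) (A : Finset (Fin d → ℤ)) (M : ℕ)
    (z : Fin d → ℤ) (n : Fin N → ℕ) :
    Qn P ξ A M z (n + fun _ => M) =
      ∑' w, srw d (∑ i, n i) w * Qn P ξ A M (z + w) (fun _ => M) := by
  set G : (Fin d → ℤ) → (Fin N × Fin (2 * M) → (Fin d → ℤ)) → ℝ≥0∞ :=
    fun y θ => Psi A M y (ex (2 * M) θ) with hG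
  have mG : ∀ y, Measurable (G y) := fun y => Measurable.of_discrete
  have h0 : ∀ y (n : Fin N → ℕ) ω, Psi A M y (sh n (re ξ ω)) = G y (Th ξ (2 * M) n ω) := by
    intro y n ω
    exact Psi_congr A M y _ _ (fun i j hj => ex_Th (2 * M) n ω i j hj)
  have h1 : ∀ y, Qn P ξ A M y (fun _ => M) = ∫⁻ ω, G y (Th ξ (2 * M) n ω) ∂P := by
    intro y
    have e1 : Qn P ξ A M y (fun _ => M) = ∫⁻ ω, G y (Th ξ (2 * M) 0 ω) ∂P := by
      unfold Qn
      apply lintegral_congr
      intro ω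
      have := qf_shift (ξ := ξ) A M y (0 : Fin N → ℕ) ω
      rw [zero_add] at this
      rw [this, h0]
      congr 1
      unfold ps
      simp
    rw [e1, ← lintegral_map (mG y) (meas_Th H (2 * M) 0), ← map_Th H (2 * M) n,
      lintegral_map (mG y) (meas_Th H (2 * M) n)]
  have h2 : Qn P ξ A M z (n + fun _ => M) = ∫⁻ ω, ∑' w, ((if ps (re ξ ω) n = w then
      (1 : ℝ≥0∞) else 0) * G (z + w) (Th ξ (2 * M) n ω)) ∂P := by
    unfold Qn
    apply lintegral_congr
    intro ω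
    rw [qf_shift, h0]
    rw [tsum_eq_single (ps (re ξ ω) n)]
    · simp
    · intro w hw
      rw [if_neg (Ne.symm hw), zero_mul]
  have hps := meas_ps H n
  have m1 : ∀ w, Measurable (fun ω => if ps (re ξ ω) n = w then (1 : ℝ≥0∞) else 0) := by
    intro w
    exact Measurable.ite (hps (measurableSet_singleton w)) measurable_const measurable_const
  have m2 : ∀ w, Measurable (fun ω => G (z + w) (Th ξ (2 * M) n ω)) :=
    fun w => (mG _).comp (meas_Th H (2 * M) n)
  have m3 : ∀ w, Measurable (fun ω => (if ps (re ξ ω) n = w then (1 : ℝ≥0∞) else 0) *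
      G (z + w) (Th ξ (2 * M) n ω)) := fun w => (m1 w).mul (m2 w)
  rw [h2, lintegral_tsum (fun w => (m3 w).aemeasurable)]
  apply tsum_congr
  intro w
  have h3 : IndepFun (fun ω => if ps (re ξ ω) n = w then (1 : ℝ≥0∞) else 0)
      (fun ω => G (z + w) (Th ξ (2 * M) n ω)) P :=
    (indep_past H (2 * M) n).comp (φ := fun y => if y = w then (1 : ℝ≥0∞) else 0)
      (ψ := G (z + w)) (Measurable.of_discrete) (mG _)
  have h4 := lintegral_mul_eq_lintegral_mul_lintegral_of_indepFun (m1 w) (m2 w) h3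
  simp only [Pi.mul_apply] at h4
  rw [h4, h1]
  congr 1
  rw [← ps_law hd H n w]
  have hset : MeasurableSet {ω | ps (re ξ ω) n = w} := hps (measurableSet_singleton w)
  rw [← lintegral_indicator_one hset]
  apply lintegral_congr
  intro ω
  by_cases h5 : ps (re ξ ω) n = w
  · rw [if_pos h5, Set.indicator_of_mem (show ω ∈ {ω | ps (re ξ ω) n = w} from h5)]; rfl
  · rw [if_neg h5, Set.indicator_of_notMem (show ω ∉ {ω | ps (re ξ ω) n = w} from h5)]

/-- shift sum -/
lemma tsum_shift (M : ℕ) (f : (Fin N → ℕ) → ℝ≥0∞) :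
    ∑' n : Fin N → ℕ, (if ∀ i, M ≤ n i then f n else 0) = ∑' n : Fin N → ℕ, f (n + fun _ => M) := by
  have hinj : Function.Injective (fun n : Fin N → ℕ => n + fun _ => M) := add_left_injective _
  rw [← hinj.tsum_eq (f := fun n => if ∀ i, M ≤ n i then f n else 0)]
  · apply tsum_congr
    intro n
    rw [if_pos]
    intro i
    simp
  · intro n hn
    rw [Function.mem_support] at hn
    have h1 : ∀ i, M ≤ n i := by
      by_contra hcon
      exact hn (if_neg hcon)
    refine ⟨n - fun _ => M, ?_⟩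
    funext i
    have := h1 i
    simp only [Pi.add_apply, Pi.sub_apply]
    omega

lemma tsum_split (M : ℕ) (f : (Fin N → ℕ) → ℝ≥0∞) :
    ∑' n : Fin N → ℕ, f n = ∑' n : Fin N → ℕ, f (n + fun _ => M) +
      ∑' n : Fin N → ℕ, (if ∀ i, M ≤ n i then 0 else f n) := by
  rw [← tsum_shift, ← ENNReal.tsum_add]
  apply tsum_congr
  intro n
  split_ifs <;> simp

noncomputable def bd (d N M : ℕ) (x : Fin d → ℤ) : ℝ≥0∞ :=
  ∑' n : Fin N → ℕ, (if ∀ i, M ≤ n i then 0 else srw d (∑ i, n i) x)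

lemma bd_eq (hd : 0 < d) (N M : ℕ) (x : Fin d → ℤ) :
    GN d N x = ∑' v, srw d (N * M) v * GN d N (x - v) + bd d N M x := by
  unfold bd
  have h1 := tsum_split (N := N) M (fun n => srw d (∑ i, n i) x)
  unfold GN
  rw [h1]
  congr 1
  simp only [← ENNReal.tsum_mul_left]
  rw [ENNReal.tsum_comm]
  apply tsum_congr
  intro n
  rw [← srw_add d hd]
  congr 1
  simp [Finset.sum_add_distrib, add_comm]

/-- the main term -/
noncomputable def Phi (P : Measure Ω) (ξ : Fin N → ℕ → Ω → (Fin d → ℤ)) (A : Finset (Fin d → ℤ))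
    (M : ℕ) (y : Fin d → ℤ) : ℝ≥0∞ := Qn P ξ A M y (fun _ => M)

lemma Q_split (hd : 0 < d) (H : IsSRWFamily P ξ) (A : Finset (Fin d → ℤ)) (M : ℕ)
    (z : Fin d → ℤ) :
    ∑' n, Qn P ξ A M z n = ∑' y, Phi P ξ A M y * GN d N (y - z) +
      ∑' n : Fin N → ℕ, (if ∀ i, M ≤ n i then 0 else Qn P ξ A M z n) := by
  rw [tsum_split M]
  congr 1
  simp only [Qn_shift hd H]
  rw [ENNReal.tsum_comm]
  simp only [ENNReal.tsum_mul_right]
  have e1 := (Equiv.addLeft z).tsum_eq (fun y => Phi P ξ A M y * GN d N (y - z))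
  rw [← e1]
  apply tsum_congr
  intro w
  rw [Equiv.coe_addLeft, add_sub_cancel_left, mul_comm]
  rfl

omit [MeasurableSpace Ω] in
lemma hit_union (A : Finset (Fin d → ℤ)) (z : Fin d → ℤ) (n : Fin N → ℕ) :
    {ω | hit ξ A z n ω} = ⋃ a ∈ A, {ω | ps (re ξ ω) n = a - z} := by
  ext ω
  simp only [Set.mem_ofPred_eq, Set.mem_iUnion, exists_prop]
  unfold hit
  constructor
  · intro h
    exact ⟨_, h, by abel⟩
  · rintro ⟨a, ha, h⟩
    rw [h]
    simpa using ha

lemma hit_prob (hd : 0 < d) (H : IsSRWFamily P ξ) (A : Finset (Fin d → ℤ)) (z : Fin d → ℤ)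
    (n : Fin N → ℕ) : P {ω | hit ξ A z n ω} ≤ ∑ a ∈ A, srw d (∑ i, n i) (a - z) := by
  rw [hit_union]
  refine le_trans (measure_biUnion_finset_le _ _) ?_
  apply Finset.sum_le_sum
  intro a _
  rw [ps_law hd H]

omit [IsProbabilityMeasure P] in
lemma Qn_le (H : IsSRWFamily P ξ) (A : Finset (Fin d → ℤ)) (M : ℕ) (z : Fin d → ℤ)
    (n : Fin N → ℕ) : Qn P ξ A M z n ≤ P {ω | hit ξ A z n ω} := by
  unfold Qn
  rw [← lintegral_indicator_one (meas_hit H A z n)]
  apply lintegral_mono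
  intro ω
  unfold qf
  by_cases h : hit ξ A z n ω
  · rw [if_pos h, Set.indicator_of_mem (show ω ∈ {ω | hit ξ A z n ω} from h)]
    exact Hs_inv_le M _ n h
  · rw [if_neg h]; exact zero_le

lemma boundary_le (hd : 0 < d) (H : IsSRWFamily P ξ) (A : Finset (Fin d → ℤ)) (M : ℕ)
    (z : Fin d → ℤ) :
    ∑' n : Fin N → ℕ, (if ∀ i, M ≤ n i then 0 else Qn P ξ A M z n) ≤
      ∑ a ∈ A, bd d N M (a - z) := by
  unfold bd
  rw [← Summable.tsum_finsetSum (fun _ _ => ENNReal.summable)]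
  apply ENNReal.tsum_le_tsum
  intro n
  split_ifs with h
  · exact zero_le
  · exact le_trans (Qn_le H A M z n) (hit_prob hd H A z n)

/-- tail -/
noncomputable def dl (d N M : ℕ) : ℝ≥0∞ :=
  ∑' r : Fin N → ℤ, (if ∀ i, |r i| ≤ M then 0 else hh d N (l1 r))

lemma far_sum (d : ℕ) (M : ℕ) (n : Fin N → ℕ) :
    ∑' m : Fin N → ℕ, (if m ∉ bx M n then hh d N (l1 (fun i => (n i : ℤ) - m i)) else 0) ≤
      dl d N M := by
  have hinj : Function.Injective (fun (m : Fin N → ℕ) (i : Fin N) => (n i : ℤ) - m i) := by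
    intro a b hab
    funext i
    have := congrFun hab i
    simp only at this
    omega
  refine le_trans ?_ (ENNReal.tsum_comp_le_tsum_of_injective hinj
    (fun r => if ∀ i, |r i| ≤ M then 0 else hh d N (l1 r)))
  apply ENNReal.tsum_le_tsum
  intro m
  by_cases h : m ∉ bx M n
  · rw [if_pos h, if_neg]
    intro h2
    apply h
    rw [mem_bx]
    intro i
    have := abs_le.mp (h2 i)
    omega
  · rw [if_neg h]; exact zero_le

lemma far_sum' (d : ℕ) (M : ℕ) (m : Fin N → ℕ) :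
    ∑' n : Fin N → ℕ, (if m ∉ bx M n then hh d N (l1 (fun i => (n i : ℤ) - m i)) else 0) ≤
      dl d N M := by
  have hinj : Function.Injective (fun (n : Fin N → ℕ) (i : Fin N) => (n i : ℤ) - m i) := by
    intro a b hab
    funext i
    have := congrFun hab i
    simp only at this
    omega
  refine le_trans ?_ (ENNReal.tsum_comp_le_tsum_of_injective hinj
    (fun r => if ∀ i, |r i| ≤ M then 0 else hh d N (l1 r)))
  apply ENNReal.tsum_le_tsum
  intro n
  by_cases h : m ∉ bx M n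
  · rw [if_pos h, if_neg]
    intro h2
    apply h
    rw [mem_bx]
    intro i
    have := abs_le.mp (h2 i)
    omega
  · rw [if_neg h]; exact zero_le

lemma error_le (H : IsSRWFamily P ξ) (hN : 2 * N < d) (A : Finset (Fin d → ℤ)) (M : ℕ)
    (z : Fin d → ℤ) :
    ∑' n, ∑' m, (if m ∉ bx M n then
      P ({ω | hit ξ A z n ω} ∩ {ω | hit ξ A z m ω}) else 0) ≤
      ∑ a ∈ A, ∑ a' ∈ A, dl d N M * (GN d N (a' - z) + GN d N (a - z)) := by
  have hd : 0 < d := by omega
  have h1 : ∀ n m : Fin N → ℕ, (if m ∉ bx M n then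
      P ({ω | hit ξ A z n ω} ∩ {ω | hit ξ A z m ω}) else 0) ≤
      ∑ a ∈ A, ∑ a' ∈ A, ((if m ∉ bx M n then hh d N (l1 (fun i => (n i : ℤ) - m i)) else 0) *
        srw d (∑ i, m i) (a' - z) +
        (if m ∉ bx M n then hh d N (l1 (fun i => (n i : ℤ) - m i)) else 0) *
        srw d (∑ i, n i) (a - z)) := by
    intro n m
    by_cases h : m ∉ bx M n
    · simp only [if_pos h, ← mul_add]
      have h2 : {ω | hit ξ A z n ω} ∩ {ω | hit ξ A z m ω} ⊆ ⋃ a ∈ A, ⋃ a' ∈ A,
          ({ω | ps (re ξ ω) n = a - z} ∩ {ω | ps (re ξ ω) m = a' - z}) := by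
        rw [hit_union, hit_union]
        intro ω hω
        simp only [Set.mem_inter_iff, Set.mem_iUnion, exists_prop] at hω ⊢
        obtain ⟨⟨a, ha, h3⟩, ⟨a', ha', h4⟩⟩ := hω
        exact ⟨a, ha, a', ha', h3, h4⟩
      refine le_trans (measure_mono h2) (le_trans (measure_biUnion_finset_le _ _) ?_)
      apply Finset.sum_le_sum
      intro a _
      refine le_trans (measure_biUnion_finset_le _ _) ?_
      apply Finset.sum_le_sum
      intro a' _
      exact two_point H hN n m _ _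
    · rw [if_neg h]; exact zero_le
  refine le_trans (ENNReal.tsum_le_tsum fun n => ENNReal.tsum_le_tsum fun m => h1 n m) ?_
  have h2 : ∑' n : Fin N → ℕ, ∑' m : Fin N → ℕ, ∑ a ∈ A, ∑ a' ∈ A,
      ((if m ∉ bx M n then hh d N (l1 (fun i => (n i : ℤ) - m i)) else 0) *
        srw d (∑ i, m i) (a' - z) +
        (if m ∉ bx M n then hh d N (l1 (fun i => (n i : ℤ) - m i)) else 0) *
        srw d (∑ i, n i) (a - z)) = ∑ a ∈ A, ∑ a' ∈ A,
      (∑' m : Fin N → ℕ, ∑' n : Fin N → ℕ,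
        (if m ∉ bx M n then hh d N (l1 (fun i => (n i : ℤ) - m i)) else 0) *
        srw d (∑ i, m i) (a' - z) + ∑' n : Fin N → ℕ, ∑' m : Fin N → ℕ,
        (if m ∉ bx M n then hh d N (l1 (fun i => (n i : ℤ) - m i)) else 0) *
        srw d (∑ i, n i) (a - z)) := by
    have h3 : ∀ n : Fin N → ℕ, ∑' m : Fin N → ℕ, ∑ a ∈ A, ∑ a' ∈ A,
      ((if m ∉ bx M n then hh d N (l1 (fun i => (n i : ℤ) - m i)) else 0) *
        srw d (∑ i, m i) (a' - z) +
        (if m ∉ bx M n then hh d N (l1 (fun i => (n i : ℤ) - m i)) else 0) *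
        srw d (∑ i, n i) (a - z)) = ∑ a ∈ A, ∑ a' ∈ A, (∑' m : Fin N → ℕ,
          (if m ∉ bx M n then hh d N (l1 (fun i => (n i : ℤ) - m i)) else 0) *
        srw d (∑ i, m i) (a' - z) + ∑' m : Fin N → ℕ,
          (if m ∉ bx M n then hh d N (l1 (fun i => (n i : ℤ) - m i)) else 0) *
        srw d (∑ i, n i) (a - z)) := by
      intro n
      rw [Summable.tsum_finsetSum (fun _ _ => ENNReal.summable)]
      apply Finset.sum_congr rfl
      intro a _
      rw [Summable.tsum_finsetSum (fun _ _ => ENNReal.summable)]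
      apply Finset.sum_congr rfl
      intro a' _
      rw [ENNReal.tsum_add]
    simp only [h3]
    rw [Summable.tsum_finsetSum (fun _ _ => ENNReal.summable)]
    apply Finset.sum_congr rfl
    intro a _
    rw [Summable.tsum_finsetSum (fun _ _ => ENNReal.summable)]
    apply Finset.sum_congr rfl
    intro a' _
    rw [ENNReal.tsum_add]
    congr 1
    exact ENNReal.tsum_comm
  rw [h2]
  apply Finset.sum_le_sum
  intro a _
  apply Finset.sum_le_sum
  intro a' _
  rw [mul_add]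
  apply add_le_add
  · simp only [ENNReal.tsum_mul_right]
    unfold GN
    rw [← ENNReal.tsum_mul_left]
    apply ENNReal.tsum_le_tsum
    intro m
    gcongr
    exact far_sum' d M m
  · simp only [ENNReal.tsum_mul_right]
    unfold GN
    rw [← ENNReal.tsum_mul_left]
    apply ENNReal.tsum_le_tsum
    intro n
    gcongr
    exact far_sum d M n

lemma dl_small (hN1 : 1 ≤ N) (δ : ℝ≥0∞) (hδ : 0 < δ) : ∃ M, dl d N M < δ := by
  have h1 := ENNReal.tendsto_tsum_compl_atTop_zero (hh_sum d N hN1)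
  have h2 := h1.eventually (gt_mem_nhds hδ)
  obtain ⟨s, hs⟩ := h2.exists
  obtain ⟨M, hM⟩ : ∃ M : ℕ, ∀ r ∈ s, ∀ i, |r i| ≤ M := by
    refine ⟨∑ r ∈ s, l1 r, fun r hr i => ?_⟩
    have h3 : l1 r ≤ ∑ r ∈ s, l1 r :=
      Finset.single_le_sum (f := fun r : Fin N → ℤ => l1 r) (fun _ _ => Nat.zero_le _) hr
    have h4 : (r i).natAbs ≤ l1 r :=
      Finset.single_le_sum (f := fun k => (r k).natAbs) (fun _ _ => Nat.zero_le _)
        (Finset.mem_univ i)
    rw [Int.abs_eq_natAbs]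
    exact_mod_cast le_trans h4 h3
  refine ⟨M, lt_of_le_of_lt ?_ hs⟩
  have h5 : ∑' b : {x // x ∉ s}, hh d N (l1 (b : Fin N → ℤ)) =
      ∑' r, Set.indicator {r : Fin N → ℤ | r ∉ s} (fun r => hh d N (l1 r)) r :=
    tsum_subtype {r : Fin N → ℤ | r ∉ s} (fun r => hh d N (l1 r))
  rw [h5]
  apply ENNReal.tsum_le_tsum
  intro r
  by_cases hr : r ∈ s
  · rw [if_pos (hM r hr)]; exact zero_le
  · rw [Set.indicator_of_mem (show r ∈ {r | r ∉ s} from hr)]
    split_ifs
    · exact zero_le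
    · exact le_rfl

end Pool.Agent.R165.SRW
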